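import Pool.Agent.P.MP_6277db_ag.KEW.L2b.Local
import Pool.Agent.P.MP_6277db_ag.KEW.TensW

/-!
KEW, layer L2b: generators of the tensor products with `funQuot`, contractions, powers of the Tate
object.
-/

set_option backward.isDefEq.respectTransparency false

noncomputable section

open CategoryTheory Limits AlgebraicGeometry Opposite MonoidalCategory TensorProduct

namespace Pool.Agent.KEW

variable {C : Type 1} [Category.{0} C] {C' : Type 1} [Category.{0} C'] {L : Type 1} [CommRing L]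

/-- A family of subsets of rings stable under ring maps. -/
structure RS : Type 1 where
  /-- the subsets -/
  S : ∀ R : CommRingCat.{0}, Set R
  maps : ∀ {R R' : CommRingCat.{0}} (f : R ⟶ R'), Set.MapsTo f (S R) (S R')

/-- The units. -/
def RS.unit : RS := ⟨fun _ => {a | IsUnit a}, fun f _ ha => IsUnit.map f.hom ha⟩

/-- The zero element. -/
def RS.zero : RS := ⟨fun _ => {0}, fun f => by simp [Set.MapsTo]⟩

/-- The presheaf `L[O] / L[S]` on a site. -/
abbrev RS.P (s : RS) (L : Type 1) [CommRing L] (u : C ⥤ Scheme.{0}) : PSh C L :=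
  u.op ⋙ funQuot L s.S s.maps

/-- Tensoring with `L[O] / L[S]`. -/
abbrev RS.T (s : RS) (L : Type 1) [CommRing L] (u : C ⥤ Scheme.{0}) : PSh C L ⥤ PSh C L :=
  tensorRight (s.P L u)

variable (L) in
/-- The class of a function. -/
def RS.el (s : RS) {U : Scheme.{0}} (a : Γ(U, ⊤)) : (funQuot L s.S s.maps).obj (op U) :=
  Submodule.Quotient.mk (Finsupp.single a 1)

variable {u : C ⥤ Scheme.{0}} {u' : C' ⥤ Scheme.{0}} (s : RS)

/-- The generator `g ⊗ [a]`. -/
def RS.tp (F : PSh C L) (W : C) (a : Γ(u.obj W, ⊤)) :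
    F.obj (op W) →ₗ[L] ((s.T L u).obj F).obj (op W) :=
  (TensorProduct.mk L (F.obj (op W)) ((funQuot L s.S s.maps).obj (op (u.obj W)))).flip (s.el L a)

lemma Tens_el_of_mem {U : Scheme.{0}} {a : Γ(U, ⊤)} (h : a ∈ s.S _) : s.el L a = 0 :=
  (Submodule.Quotient.mk_eq_zero _).2 (Finsupp.single_mem_supported L 1 h)

lemma Tens_map_el {U V : Scheme.{0}} (f : V ⟶ U) (a : Γ(U, ⊤)) :
    ((funQuot L s.S s.maps).map f.op).hom (s.el L a) = s.el L (f.appTop a) :=
  congrArg Submodule.Quotient.mk (Finsupp.mapDomain_single (f := f.appTop) (a := a) (b := (1 : L)))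

lemma Tens_tp_eq (F : PSh C L) (W : C) (a : Γ(u.obj W, ⊤)) (g : F.obj (op W)) :
    s.tp F W a g = g ⊗ₜ[L] s.el L a := rfl

lemma RS.tp_of_mem (F : PSh C L) (W : C) {a : Γ(u.obj W, ⊤)} (h : a ∈ s.S _) (g : F.obj (op W)) :
    s.tp F W a g = 0 := by
  rw [Tens_tp_eq, Tens_el_of_mem s h]
  exact TensorProduct.tmul_zero _ g

lemma RS.map_tp (F : PSh C L) {V W : C} (f : V ⟶ W) (a : Γ(u.obj W, ⊤)) (g : F.obj (op W)) :
    (((s.T L u).obj F).map f.op).hom (s.tp F W a g) =
      s.tp F V ((u.map f).appTop a) ((F.map f.op).hom g) := by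
  rw [Tens_tp_eq, Tens_tp_eq, ← Tens_map_el]
  rfl

lemma RS.T_map_tp {F F' : PSh C L} (φ : F ⟶ F') (W : C) (a : Γ(u.obj W, ⊤)) (g : F.obj (op W)) :
    (((s.T L u).map φ).app (op W)).hom (s.tp F W a g) = s.tp F' W a ((φ.app (op W)).hom g) := by
  rfl

lemma RS.lin_ext {F : PSh C L} {W : C} {M : Type 1} [AddCommGroup M] [Module L M]
    {f f' : ((s.T L u).obj F).obj (op W) →ₗ[L] M}
    (h : ∀ a g, f (s.tp F W a g) = f' (s.tp F W a g)) : f = f' := by
  refine TensorProduct.ext' fun g t => ?_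
  obtain ⟨t, rfl⟩ := Submodule.Quotient.mk_surjective _ t
  let k : (Γ(u.obj W, ⊤) →₀ L) →ₗ[L] ((s.T L u).obj F).obj (op W) :=
    TensorProduct.mk L (F.obj (op W)) ((funQuot L s.S s.maps).obj (op (u.obj W))) g ∘ₗ
      (Finsupp.supported L L (s.S Γ(u.obj W, ⊤))).mkQ
  have e : f ∘ₗ k = f' ∘ₗ k := Finsupp.lhom_ext' fun a => LinearMap.ext_ring (h a g)
  exact LinearMap.congr_fun e t

/-- Linear maps out of the sections of the tensor product. -/
def Tens_lift {F : PSh C L} {W : C} {M : Type 1} [AddCommGroup M] [Module L M]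
    (ψ : Γ(u.obj W, ⊤) → (F.obj (op W) →ₗ[L] M)) (h0 : ∀ a g, a ∈ s.S _ → ψ a g = 0) :
    ((s.T L u).obj F).obj (op W) →ₗ[L] M :=
  TensorProduct.lift (LinearMap.flip (Submodule.liftQ (Finsupp.supported L L (s.S Γ(u.obj W, ⊤)))
    (Finsupp.linearCombination L ψ) (by
      rw [Finsupp.supported_eq_span_single, Submodule.span_le]
      rintro _ ⟨a, ha, rfl⟩
      have : ψ a = 0 := LinearMap.ext fun g => h0 a g ha
      simp [this])))

lemma Tens_lift_tp {F : PSh C L} {W : C} {M : Type 1} [AddCommGroup M] [Module L M]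
    (ψ : Γ(u.obj W, ⊤) → (F.obj (op W) →ₗ[L] M)) (h0 : ∀ a g, a ∈ s.S _ → ψ a g = 0)
    (a : Γ(u.obj W, ⊤)) (g : F.obj (op W)) : Tens_lift s ψ h0 (s.tp F W a g) = ψ a g := by
  change Finsupp.linearCombination L ψ (Finsupp.single a 1) g = ψ a g
  rw [Finsupp.linearCombination_single, one_smul]

lemma RS.hom_ext {F M : PSh C L} {f f' : (s.T L u).obj F ⟶ M}
    (h : ∀ W a g, (f.app (op W)).hom (s.tp F W a g) = (f'.app (op W)).hom (s.tp F W a g)) :
    f = f' := by
  ext W : 2
  exact ModuleCat.hom_ext (s.lin_ext (h W.unop))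

variable (u) in
/-- The data of a map out of `F ⊗ L[O] / L[S]`. -/
structure RS.Cone (F M : PSh C L) where
  /-- the value on `g ⊗ [a]` -/
  ψ : ∀ W : C, Γ(u.obj W, ⊤) → (F.obj (op W) →ₗ[L] M.obj (op W))
  nat : ∀ {V W : C} (f : V ⟶ W) (a : Γ(u.obj W, ⊤)) (g : F.obj (op W)),
    (M.map f.op).hom (ψ W a g) = ψ V ((u.map f).appTop a) ((F.map f.op).hom g)
  zero : ∀ (W : C) (a : Γ(u.obj W, ⊤)) (g : F.obj (op W)), a ∈ s.S _ → ψ W a g = 0

variable {s} in
lemma RS.Cone.exists_desc {F M : PSh C L} (c : s.Cone u F M) :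
    ∃ f : (s.T L u).obj F ⟶ M, ∀ W a g, (f.app (op W)).hom (s.tp F W a g) = c.ψ W a g := by
  refine ⟨⟨fun W => ModuleCat.ofHom (Tens_lift s (c.ψ W.unop) (c.zero W.unop)), fun W V f => ?_⟩,
    fun W a g => Tens_lift_tp s (c.ψ W) (c.zero W) a g⟩
  refine ModuleCat.hom_ext (s.lin_ext fun a g => ?_)
  have h1 := s.map_tp F f.unop a g
  have h2 := Tens_lift_tp s (c.ψ W.unop) (c.zero W.unop) a g
  have h3 := Tens_lift_tp s (c.ψ V.unop) (c.zero V.unop) ((u.map f.unop).appTop a)
    ((F.map f).hom g)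
  have h4 := c.nat f.unop a g
  exact (congrArg (Tens_lift s (c.ψ V.unop) (c.zero V.unop)) h1).trans
    (h3.trans (h4.symm.trans (congrArg (M.map f).hom h2.symm)))

variable {s} in
/-- The map out of `F ⊗ L[O] / L[S]`. -/
def RS.Cone.desc {F M : PSh C L} (c : s.Cone u F M) : (s.T L u).obj F ⟶ M := c.exists_desc.choose

variable {s} in
lemma RS.Cone.desc_tp {F M : PSh C L} (c : s.Cone u F M) (W : C) (a : Γ(u.obj W, ⊤))
    (g : F.obj (op W)) : (c.desc.app (op W)).hom (s.tp F W a g) = c.ψ W a g :=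
  c.exists_desc.choose_spec W a g

instance : IsExact (s.T L u) := by
  exact isExact_tensorRight _ fun _ => flat_funQuot s.S s.maps _

lemma presW_T : PresW (NGen u) (NGen u) (mapC (s.T L u)) := by
  exact fun _ _ f hf => tens_WW u _ (fun _ => flat_funQuot s.S s.maps _) f hf

/-- The map `g ↦ g ⊗ [1]`. -/
def Tens_one (F : PSh C L) : F ⟶ (s.T L u).obj F where
  app W := ModuleCat.ofHom (s.tp F W.unop 1)
  naturality W V f := by
    refine ModuleCat.hom_ext (LinearMap.ext fun g => ?_)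
    have h := s.map_tp F f.unop (1 : Γ(u.obj W.unop, ⊤)) g
    rw [map_one] at h
    exact h.symm

/-- A functor with a natural contraction takes values in `Loc (NGen u)`: the value is a retract of
its tensor product with the reduced line. -/
lemma loc_of_contraction (Ψ : PSh C' L ⥤ PSh C L) [Ψ.Additive] (h : Ψ ⋙ RS.zero.T L u ⟶ Ψ)
    (hh : ∀ G W g, ((h.app G).app (op W)).hom (RS.zero.tp (Ψ.obj G) W 1 g) = g) (K : Ch C' L) :
    Loc (NGen u) ((mapC Ψ).obj K) := by
  let i : Ψ ⟶ Ψ ⋙ RS.zero.T L u := ⟨fun G => Tens_one RS.zero (Ψ.obj G), fun _ _ _ => rfl⟩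
  refine Loc.of_retract ((chT i).app K) ((chT h).app K) ?_
    (Loc.gen _ (Or.inr ⟨(mapC Ψ).obj K, rfl⟩))
  ext n W : 3
  exact ModuleCat.hom_ext (LinearMap.ext fun g => hh (K.X n) W.unop g)

lemma loc_sgl_of_contraction (F : PSh C L) (c : RS.zero.Cone u F F) (hh : ∀ W g, c.ψ W 1 g = g) :
    Loc (NGen u) ((sgl 0).obj F) := by
  have h : Loc (NGen u) ((sgl 0).obj ((RS.zero.T L u).obj F)) :=
    Loc.of_iso ((HomologicalComplex.singleMapHomologicalComplex
      (RS.zero.T L u) _ 0).app F) (Loc.gen _ (Or.inr ⟨_, rfl⟩))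
  refine Loc.of_retract ((sgl 0).map (Tens_one RS.zero F)) ((sgl 0).map c.desc) ?_ h
  rw [← Functor.map_comp, ← CategoryTheory.Functor.map_id]
  congr 1
  ext W : 2
  exact ModuleCat.hom_ext (LinearMap.ext fun g => (c.desc_tp W.unop 1 g).trans (hh _ g))

variable {X : SP C}

lemma Tens_smLift_I {a b : X.Sub} {G : PSh (El X) L} {W : C} {M : Type 1} [AddCommGroup M]
    [Module L M] (φ : ∀ x : X.obj W, G.obj (op ⟨W, x⟩) →ₗ[L] M) {x : X.obj W} (ha : a.mem x)
    (g : G.obj (op ⟨W, x⟩)) (hb : b.mem x → φ x g = 0) :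
    smLift a b (fun x _ => φ x) (smI a b G ⟨W, x⟩ g) = φ x g :=
  smLift_I (fun x _ => φ x) ha g hb

/-- The generator map of a sum with constant coefficients. -/
def Tens_J (a b : X.Sub) (G : PSh C L) (W : C) (x : X.obj W) :
    G.obj (op W) →ₗ[L] SmMod a b ((pb L (El.proj X)).obj G) W :=
  smI a b ((pb L (El.proj X)).obj G) ⟨W, x⟩

/-- The endomorphism of a sum with constant coefficients given by a map on the indices. -/
def Tens_mv (a b : X.Sub) (G : PSh C L) (W : C) (k : X.obj W → X.obj W) :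
    SmMod a b ((pb L (El.proj X)).obj G) W →ₗ[L] SmMod a b ((pb L (El.proj X)).obj G) W :=
  smLift a b fun x _ => Tens_J a b G W (k x)

lemma Tens_mv_J {a b : X.Sub} (G : PSh C L) {W : C} (k : X.obj W → X.obj W) {x : X.obj W}
    (ha : a.mem x) (hb : b.mem x → b.mem (k x)) (g : G.obj (op W)) :
    Tens_mv a b G W k (Tens_J a b G W x g) = Tens_J a b G W (k x) g := by
  have h := Tens_smLift_I (a := a) (b := b) (G := (pb L (El.proj X)).obj G)
    (M := SmMod a b ((pb L (El.proj X)).obj G) W) (fun x => Tens_J a b G W (k x)) ha g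
    fun hx => smI_of_b (G := (pb L (El.proj X)).obj G) (p := ⟨W, k x⟩) (hb hx) g
  exact h

lemma Tens_J_ext {a b : X.Sub} {G : PSh C L} {W : C} {M : Type 1} [AddCommGroup M] [Module L M]
    {f f' : SmMod a b ((pb L (El.proj X)).obj G) W →ₗ[L] M}
    (h : ∀ (x : X.obj W) (g : G.obj (op W)), a.mem x →
      f (Tens_J a b G W x g) = f' (Tens_J a b G W x g)) : f = f' :=
  sm_lin_ext fun x g hx _ => h x g hx

lemma Tens_res_J {a b : X.Sub} (G : PSh C L) {V W : C} (f : V ⟶ W) {x : X.obj W} (ha : a.mem x)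
    (g : G.obj (op W)) : smRes a b ((pb L (El.proj X)).obj G) f (Tens_J a b G W x g) =
      Tens_J a b G V (X.res f x) ((G.map f.op).hom g) :=
  smObj_map_I' (b := b) ((pb L (El.proj X)).obj G) f ha g

lemma Tens_map_J {a b : X.Sub} {G G' : PSh C L} (τ : G ⟶ G') {W : C} (x : X.obj W)
    (g : G.obj (op W)) :
    (smMapCone a b ((pb L (El.proj X)).map τ)).lin W (Tens_J a b G W x g) =
      Tens_J a b G' W x ((τ.app (op W)).hom g) :=
  sm_map_I (a := a) (b := b) ((pb L (El.proj X)).map τ) ⟨W, x⟩ g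

/-- A pair `(a, b)` which is contracted into `b` by a natural action of the affine line. -/
lemma loc_sm_of_homotopy (a b : X.Sub) (h : ∀ {W : C}, X.obj W → Γ(u.obj W, ⊤) → X.obj W)
    (nat : ∀ {V W : C} (f : V ⟶ W) (x : X.obj W) (r : Γ(u.obj W, ⊤)), a.mem x →
      X.res f (h x r) = h (X.res f x) ((u.map f).appTop r))
    (ha : ∀ {W : C} (x : X.obj W) (r : Γ(u.obj W, ⊤)), a.mem x → a.mem (h x r))
    (hb : ∀ {W : C} (x : X.obj W) (r : Γ(u.obj W, ⊤)), a.mem x → b.mem x → b.mem (h x r))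
    (h₁ : ∀ {W : C} (x : X.obj W), a.mem x → h x 1 = x)
    (h₀ : ∀ {W : C} (x : X.obj W), a.mem x → b.mem (h x 0)) (K : Ch C L) :
    Loc (NGen u) ((mapC (pb L (El.proj X) ⋙ sm a b L)).obj K) := by
  let c : ∀ G : PSh C L, RS.zero.Cone u ((pb L (El.proj X) ⋙ sm a b L).obj G)
      ((pb L (El.proj X) ⋙ sm a b L).obj G) := fun G =>
    { ψ := fun W r => Tens_mv a b G W fun x => h x r
      nat := fun {V W} f r m => by
        have e : smRes a b ((pb L (El.proj X)).obj G) f ∘ₗ (Tens_mv a b G W fun x => h x r) =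
            (Tens_mv a b G V fun x => h x ((u.map f).appTop r)) ∘ₗ
              smRes a b ((pb L (El.proj X)).obj G) f := Tens_J_ext fun x g hx => by
          rw [LinearMap.comp_apply, LinearMap.comp_apply, Tens_mv_J G _ hx (hb x r hx),
            Tens_res_J G f (ha x r hx), Tens_res_J G f hx,
            Tens_mv_J G _ (a.res f hx) (hb _ _ (a.res f hx)), nat f x r hx]
        exact LinearMap.congr_fun e m
      zero := fun W r m hr => by
        obtain rfl : r = 0 := hr
        have e : (Tens_mv a b G W fun x => h x 0) = 0 := Tens_J_ext fun x g hx =>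
          (Tens_mv_J G _ hx (hb x 0 hx) g).trans
            (smI_of_b (G := (pb L (El.proj X)).obj G) (p := ⟨W, h x 0⟩) (h₀ x hx) g)
        exact LinearMap.congr_fun e m }
  refine loc_of_contraction _ ⟨fun G => (c G).desc, fun G G' τ => ?_⟩ (fun G W m => ?_) K
  · refine RS.zero.hom_ext fun W r m => ?_
    have h2 := (c G').desc_tp W r
      ((((pb L (El.proj X) ⋙ sm a b L).map τ).app (op W)).hom m)
    have h3 := (c G).desc_tp W r m
    have e : (Tens_mv a b G' W fun x => h x r) ∘ₗ (smMapCone a b ((pb L (El.proj X)).map τ)).lin W =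
        (smMapCone a b ((pb L (El.proj X)).map τ)).lin W ∘ₗ Tens_mv a b G W fun x => h x r :=
      Tens_J_ext fun x g hx => by
        have h4 := Tens_map_J (a := a) (b := b) τ x g
        have h5 := Tens_mv_J G' (fun x => h x r) hx (hb x r hx) ((τ.app (op W)).hom g)
        have h6 := Tens_map_J (a := a) (b := b) τ (h x r) g
        have h7 := Tens_mv_J G (fun x => h x r) hx (hb x r hx) g
        exact (congrArg (Tens_mv a b G' W fun x => h x r) h4).trans (h5.trans (h6.symm.trans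
          (congrArg ((smMapCone a b ((pb L (El.proj X)).map τ)).lin W) h7.symm)))
    exact h2.trans ((LinearMap.congr_fun e m).trans
      (congrArg ((smMapCone a b ((pb L (El.proj X)).map τ)).lin W) h3.symm))
  · have e : (Tens_mv a b G W fun x => h x 1) = LinearMap.id := Tens_J_ext fun x g hx => by
      rw [Tens_mv_J G _ hx (hb x 1 hx), h₁ x hx, LinearMap.id_apply]
    exact ((c G).desc_tp W 1 m).trans (LinearMap.congr_fun e m)

section theta

variable (lam : El X ⥤ C') (π : lam ⋙ u' ⟶ El.proj X ⋙ u) (a b : X.Sub)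

lemma Tens_π_nat {p q : El X} (f : p ⟶ q) (r : Γ(u.obj q.W, ⊤)) :
    (u'.map (lam.map f)).appTop ((π.app q).appTop r) = (π.app p).appTop ((u.map f.1).appTop r) := by
  have h : u'.map (lam.map f) ≫ π.app q = π.app p ≫ u.map f.1 := π.naturality f
  exact congrArg (fun k => k.appTop r) h

/-- The value of the comparison map on `- ⊗ [r]`. -/
def Tens_ψ (G : PSh C' L) (W : C) (r : Γ(u.obj W, ⊤)) :
    SmMod a b ((pb L lam).obj G) W →ₗ[L] SmMod a b ((pb L lam).obj ((s.T L u').obj G)) W :=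
  smLift a b fun x _ => smI a b ((pb L lam).obj ((s.T L u').obj G)) ⟨W, x⟩ ∘ₗ
    s.tp G (lam.obj ⟨W, x⟩) ((π.app ⟨W, x⟩).appTop r)

lemma Tens_ψ_I (G : PSh C' L) (p : El X) (r : Γ(u.obj p.W, ⊤)) (g : G.obj (op (lam.obj p))) :
    Tens_ψ s lam π a b G p.W r (smI a b ((pb L lam).obj G) p g) =
      smI a b ((pb L lam).obj ((s.T L u').obj G)) p
        (s.tp G (lam.obj p) ((π.app p).appTop r) g) := by
  obtain ⟨W, x⟩ := p
  by_cases hx : a.mem x
  · have h := Tens_smLift_I (a := a) (b := b) (G := (pb L lam).obj G)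
      (M := SmMod a b ((pb L lam).obj ((s.T L u').obj G)) W)
      (fun x => smI a b ((pb L lam).obj ((s.T L u').obj G)) ⟨W, x⟩ ∘ₗ
        s.tp G (lam.obj ⟨W, x⟩) ((π.app ⟨W, x⟩).appTop r)) hx g
      fun hx' => smI_of_b (G := (pb L lam).obj ((s.T L u').obj G)) (p := ⟨W, x⟩) hx' _
    exact h
  · exact ((congrArg _ (smI_of_not_a (b := b) (G := (pb L lam).obj G) (p := ⟨W, x⟩) hx g)).trans
      (map_zero _)).trans (smI_of_not_a (p := ⟨W, x⟩) hx _).symm

/-- The data of the comparison map. -/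
def Tens_cone (G : PSh C' L) : s.Cone u ((pb L lam ⋙ sm a b L).obj G)
    ((s.T L u' ⋙ (pb L lam ⋙ sm a b L)).obj G) where
  ψ := Tens_ψ s lam π a b G
  nat {V W} f r m := by
    refine LinearMap.congr_fun (sm_lin_ext (G := (pb L lam).obj G)
      (f := ((smObj a b ((pb L lam).obj ((s.T L u').obj G))).map f.op).hom ∘ₗ
        Tens_ψ s lam π a b G W r)
      (f' := Tens_ψ s lam π a b G V ((u.map f).appTop r) ∘ₗ
        ((smObj a b ((pb L lam).obj G)).map f.op).hom) fun x g hx _ => ?_) m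
    have h1 := Tens_ψ_I s lam π a b G ⟨W, x⟩ r g
    have h2 := smObj_map_I' (b := b) ((pb L lam).obj ((s.T L u').obj G)) f hx
      (s.tp G (lam.obj ⟨W, x⟩) ((π.app ⟨W, x⟩).appTop r) g)
    have h3 := s.map_tp G (lam.map (El.along f x)) ((π.app ⟨W, x⟩).appTop r) g
    rw [Tens_π_nat lam π (El.along f x) r] at h3
    have h4 := Tens_ψ_I s lam π a b G ⟨V, X.res f x⟩ ((u.map f).appTop r)
      ((G.map (lam.map (El.along f x)).op).hom g)
    have h5 := smObj_map_I' (b := b) ((pb L lam).obj G) f hx g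
    exact (congrArg _ h1).trans (h2.trans ((congrArg _ h3).trans
      (h4.symm.trans (congrArg _ h5.symm))))
  zero W r m hr := by
    refine LinearMap.congr_fun (sm_lin_ext (G := (pb L lam).obj G)
      (f := Tens_ψ s lam π a b G W r) (f' := 0) fun x g _ _ => ?_) m
    refine (Tens_ψ_I s lam π a b G ⟨W, x⟩ r g).trans ?_
    rw [s.tp_of_mem G _ (s.maps (π.app ⟨W, x⟩).appTop hr)]
    exact map_zero _

lemma exists_smθ : ∃ θ : (pb L lam ⋙ sm a b L) ⋙ s.T L u ⟶ s.T L u' ⋙ (pb L lam ⋙ sm a b L),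
    ∀ (G : PSh C' L) (p : El X) (r : Γ(u.obj p.W, ⊤)) (g : G.obj (op (lam.obj p))),
      ((θ.app G).app (op p.W)).hom
        (s.tp ((pb L lam ⋙ sm a b L).obj G) p.W r (smI a b ((pb L lam).obj G) p g)) =
      smI a b ((pb L lam).obj ((s.T L u').obj G)) p
        (s.tp G (lam.obj p) ((π.app p).appTop r) g) := by
  refine ⟨⟨fun G => (Tens_cone s lam π a b G).desc, fun G G' τ => ?_⟩, fun G p r g =>
    ((Tens_cone s lam π a b G).desc_tp p.W r _).trans (Tens_ψ_I s lam π a b G p r g)⟩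
  refine s.hom_ext fun W r m => ?_
  have h1 := s.T_map_tp ((pb L lam ⋙ sm a b L).map τ) W r m
  have h2 := (Tens_cone s lam π a b G').desc_tp W r
    ((((pb L lam ⋙ sm a b L).map τ).app (op W)).hom m)
  have h3 := (Tens_cone s lam π a b G).desc_tp W r m
  refine (congrArg ((Tens_cone s lam π a b G').desc.app (op W)).hom h1).trans (h2.trans (Eq.trans ?_
    (congrArg (((s.T L u' ⋙ (pb L lam ⋙ sm a b L)).map τ).app (op W)).hom h3.symm)))
  refine LinearMap.congr_fun (sm_lin_ext (G := (pb L lam).obj G)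
    (f := Tens_ψ s lam π a b G' W r ∘ₗ (((sm a b L).map ((pb L lam).map τ)).app (op W)).hom)
    (f' := (((sm a b L).map ((pb L lam).map ((s.T L u').map τ))).app (op W)).hom ∘ₗ
      Tens_ψ s lam π a b G W r) fun x g _ _ => ?_) m
  have h4 := sm_map_I (a := a) (b := b) ((pb L lam).map τ) ⟨W, x⟩ g
  have h5 := Tens_ψ_I s lam π a b G' ⟨W, x⟩ r ((τ.app (op (lam.obj ⟨W, x⟩))).hom g)
  have h6 := sm_map_I (a := a) (b := b) ((pb L lam).map ((s.T L u').map τ)) ⟨W, x⟩
    (s.tp G (lam.obj ⟨W, x⟩) ((π.app ⟨W, x⟩).appTop r) g)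
  have h7 := Tens_ψ_I s lam π a b G ⟨W, x⟩ r g
  exact (congrArg (Tens_ψ s lam π a b G' W r) h4).trans
    (h5.trans (h6.symm.trans (congrArg _ h7.symm)))

variable (L) in
/-- The sum functors are lax compatible with `- ⊗ L[O] / L[S]`. -/
def smθ : (pb L lam ⋙ sm a b L) ⋙ s.T L u ⟶ s.T L u' ⋙ (pb L lam ⋙ sm a b L) :=
  (exists_smθ s lam π a b).choose

lemma smθ_I (G : PSh C' L) (p : El X) (r : Γ(u.obj p.W, ⊤)) (g : G.obj (op (lam.obj p))) :
    (((smθ L s lam π a b).app G).app (op p.W)).hom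
        (s.tp ((pb L lam ⋙ sm a b L).obj G) p.W r (smI a b ((pb L lam).obj G) p g)) =
      smI a b ((pb L lam).obj ((s.T L u').obj G)) p
        (s.tp G (lam.obj p) ((π.app p).appTop r) g) :=
  (exists_smθ s lam π a b).choose_spec G p r g

lemma Tens_inv_π [IsIso π] (p : El X) (r : Γ(u.obj p.W, ⊤)) :
    (inv (π.app p)).appTop ((π.app p).appTop r) = r := by
  have h' := congrArg (fun k => k.appTop r) (IsIso.inv_hom_id (π.app p))
  simpa only [Scheme.Hom.comp_appTop, CommRingCat.comp_apply, Scheme.Hom.id_appTop,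
    CommRingCat.id_apply] using h'

lemma Tens_π_inv [IsIso π] (p : El X) (r : Γ(u'.obj (lam.obj p), ⊤)) :
    (π.app p).appTop ((inv (π.app p)).appTop r) = r := by
  have h' := congrArg (fun k => k.appTop r) (IsIso.hom_inv_id (π.app p))
  simpa only [Scheme.Hom.comp_appTop, CommRingCat.comp_apply, Scheme.Hom.id_appTop,
    CommRingCat.id_apply] using h'

/-- The inverse of the comparison map on one summand. -/
def Tens_φ [IsIso π] (G : PSh C' L) (p : El X) : ((s.T L u').obj G).obj (op (lam.obj p)) →ₗ[L]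
    ((s.T L u).obj ((pb L lam ⋙ sm a b L).obj G)).obj (op p.W) :=
  Tens_lift s (fun r => s.tp ((pb L lam ⋙ sm a b L).obj G) p.W ((inv (π.app p)).appTop r) ∘ₗ
    smI a b ((pb L lam).obj G) p) fun _ g hr => s.tp_of_mem ((pb L lam ⋙ sm a b L).obj G) p.W
      (s.maps (inv (π.app p)).appTop hr) (smI a b ((pb L lam).obj G) p g)

lemma Tens_φ_tp [IsIso π] (G : PSh C' L) (p : El X) (r : Γ(u.obj p.W, ⊤))
    (g : G.obj (op (lam.obj p))) :
    Tens_φ s lam π a b G p (s.tp G (lam.obj p) ((π.app p).appTop r) g) =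
      s.tp ((pb L lam ⋙ sm a b L).obj G) p.W r (smI a b ((pb L lam).obj G) p g) := by
  rw [Tens_φ, Tens_lift_tp, Tens_inv_π]
  rfl

lemma Tens_lin_ext [IsIso π] {G : PSh C' L} {p : El X} {M : Type 1} [AddCommGroup M] [Module L M]
    {f f' : ((s.T L u').obj G).obj (op (lam.obj p)) →ₗ[L] M}
    (h : ∀ (r : Γ(u.obj p.W, ⊤)) g, f (s.tp G (lam.obj p) ((π.app p).appTop r) g) =
      f' (s.tp G (lam.obj p) ((π.app p).appTop r) g)) : f = f' :=
  s.lin_ext fun r g => by
    have := h ((inv (π.app p)).appTop r) g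
    rwa [Tens_π_inv] at this

/-- The data of the inverse of the comparison map. -/
def Tens_inv [IsIso π] (G : PSh C' L) : SmCone a b ((pb L lam).obj ((s.T L u').obj G))
    ((s.T L u).obj ((pb L lam ⋙ sm a b L).obj G)) where
  φ p _ := Tens_φ s lam π a b G p
  nat {p q} f hq t := by
    refine LinearMap.congr_fun (Tens_lin_ext s lam π
      (f := (((s.T L u).obj ((pb L lam ⋙ sm a b L).obj G)).map f.1.op).hom ∘ₗ
        Tens_φ s lam π a b G q)
      (f' := Tens_φ s lam π a b G p ∘ₗ (((s.T L u').obj G).map (lam.map f).op).hom)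
      fun r g => ?_) t
    have h1 := Tens_φ_tp s lam π a b G q r g
    have h2 := s.map_tp ((pb L lam ⋙ sm a b L).obj G) f.1 r (smI a b ((pb L lam).obj G) q g)
    have h3 := smObj_map_I (b := b) ((pb L lam).obj G) f hq g
    have h4 := Tens_φ_tp s lam π a b G p ((u.map f.1).appTop r) ((G.map (lam.map f).op).hom g)
    have h5 := s.map_tp G (lam.map f) ((π.app q).appTop r) g
    rw [Tens_π_nat lam π f r] at h5
    exact (congrArg _ h1).trans (h2.trans ((congrArg _ h3).trans
      (h4.symm.trans (congrArg _ h5.symm))))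
  zero p _ t hp := by
    refine LinearMap.congr_fun (Tens_lin_ext s lam π (f := Tens_φ s lam π a b G p) (f' := 0)
      fun r g => ?_) t
    exact (Tens_φ_tp s lam π a b G p r g).trans
      ((congrArg _ (smI_of_b (a := a) (G := (pb L lam).obj G) hp g)).trans (map_zero _))

lemma isIso_smθ [IsIso π] : IsIso (smθ L s lam π a b) := by
  have : ∀ G, IsIso ((smθ L s lam π a b).app G) := fun G => by
    refine ⟨(Tens_inv s lam π a b G).desc, s.hom_ext fun W r m => ?_,
      sm_hom_ext fun p t hp _ => ?_⟩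
    · refine LinearMap.congr_fun (sm_lin_ext (G := (pb L lam).obj G)
        (f := ((Tens_inv s lam π a b G).desc.app (op W)).hom ∘ₗ
          (((smθ L s lam π a b).app G).app (op W)).hom ∘ₗ
            s.tp ((pb L lam ⋙ sm a b L).obj G) W r)
        (f' := s.tp ((pb L lam ⋙ sm a b L).obj G) W r) fun x g hx _ => ?_) m
      have h1 := smθ_I s lam π a b G ⟨W, x⟩ r g
      have h2 := (Tens_inv s lam π a b G).desc_I ⟨W, x⟩ hx
        (s.tp G (lam.obj ⟨W, x⟩) ((π.app ⟨W, x⟩).appTop r) g)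
      exact (congrArg _ h1).trans (h2.trans (Tens_φ_tp s lam π a b G ⟨W, x⟩ r g))
    · refine (congrArg (((smθ L s lam π a b).app G).app (op p.W)).hom
        ((Tens_inv s lam π a b G).desc_I p hp t)).trans ?_
      refine LinearMap.congr_fun (Tens_lin_ext s lam π
        (f := (((smθ L s lam π a b).app G).app (op p.W)).hom ∘ₗ Tens_φ s lam π a b G p)
        (f' := smI a b ((pb L lam).obj ((s.T L u').obj G)) p) fun r g => ?_) t
      exact (congrArg _ (Tens_φ_tp s lam π a b G p r g)).trans (smθ_I s lam π a b G p r g)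
  exact NatIso.isIso_of_isIso_app _

end theta

end Pool.Agent.KEW
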