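import Pool.Agent.P.MP_6277db_ag.KEW.L2b.Sum
import Pool.Agent.P.MP_6277db_ag.KEW.L2a.Geom
import Pool.Agent.P.MP_6277db_ag.KEW.L1.Fun

/-!
KEW, layer L2b: exactness of the sum functor, change of the subpresheaves, local bijectivity
criteria and the finite cover lemma.
-/

set_option backward.isDefEq.respectTransparency false

noncomputable section

open CategoryTheory Limits AlgebraicGeometry Opposite

namespace Pool.Agent.KEW

variable {C : Type 1} [Category.{0} C] {L : Type 1} [CommRing L] {X X' : SP C}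

lemma Exact_ext {a b : X.Sub} {G : PSh (El X) L} {W : C} {m : SmMod a b G W}
    (h : ∀ x, smPi a b G W x m = 0) : m = 0 := by
  obtain ⟨s, hs, -⟩ := sm_eq_sum m
  rw [hs]
  exact Finset.sum_eq_zero fun x _ => by rw [h, map_zero]

lemma Exact_pi_map {a b : X.Sub} {G G' : PSh (El X) L} (τ : G ⟶ G') {W : C} (x : SmIdx a b W)
    (m : SmMod a b G W) :
    smPi a b G' W x ((((sm a b L).map τ).app (op W)).hom m) =
      (τ.app (op ⟨W, x.1⟩)).hom (smPi a b G W x m) := by
  have h : smPi a b G' W x ∘ₗ (((sm a b L).map τ).app (op W)).hom =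
      (τ.app (op ⟨W, x.1⟩)).hom ∘ₗ smPi a b G W x := by
    refine sm_lin_ext fun y g _ _ => ?_
    have h1 := sm_map_I (a := a) (b := b) τ ⟨W, y⟩ g
    refine (congrArg (smPi a b G' W x) h1).trans ?_
    by_cases e : y = x.1
    · subst e
      exact (smPi_I_self x _).trans (congrArg _ (smPi_I_self x g).symm)
    · exact (smPi_I_ne x e _).trans ((map_zero _).symm.trans
        (congrArg (τ.app (op ⟨W, x.1⟩)).hom (smPi_I_ne x e g).symm))
  exact LinearMap.congr_fun h m

lemma Exact_mono (a b : X.Sub) : (sm a b L).PreservesMonomorphisms where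
  preserves {G G'} τ _ := by
    have : ∀ W, Mono (((sm a b L).map τ).app W) := fun W => by
      rw [ModuleCat.mono_iff_injective]
      refine (injective_iff_map_eq_zero (((sm a b L).map τ).app W).hom).2 fun m hm => ?_
      refine Exact_ext (W := W.unop) fun x => ?_
      have h1 := Exact_pi_map τ x m
      have h2 : Function.Injective (τ.app (op ⟨W.unop, x.1⟩)).hom :=
        (ModuleCat.mono_iff_injective _).1 inferInstance
      apply h2
      rw [← h1, map_zero]
      exact (congrArg _ hm).trans (map_zero _)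
    exact NatTrans.mono_of_mono_app _

/-- The cocone on one summand attached to a cocone on the sums. -/
def Exact_cocone {J : Type*} [Category J] {a b : X.Sub} {K : J ⥤ PSh (El X) L} {W : Cᵒᵖ}
    (s : Cocone (K ⋙ sm a b L ⋙ (evaluation _ _).obj W)) (x : X.obj W.unop) :
    Cocone (K ⋙ (evaluation _ _).obj (op (⟨W.unop, x⟩ : El X))) where
  pt := s.pt
  ι :=
    { app j := ModuleCat.ofHom ((s.ι.app j).hom ∘ₗ smI a b (K.obj j) ⟨W.unop, x⟩)
      naturality j j' f := by
        refine ModuleCat.hom_ext (LinearMap.ext fun g => ?_)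
        have h1 := sm_map_I (a := a) (b := b) (K.map f) ⟨W.unop, x⟩ g
        have h2 := congrArg (fun k => k.hom (smI a b (K.obj j) ⟨W.unop, x⟩ g)) (s.w f)
        exact (congrArg (s.ι.app j').hom h1.symm).trans h2 }

lemma Exact_colim (a b : X.Sub) (J : Type*) [Category J] [HasColimitsOfShape J (ModuleCat.{1} L)] :
    PreservesColimitsOfShape J (sm a b L) := by
  refine preservesColimitsOfShape_of_evaluation _ _ fun W => ⟨fun {K} => ⟨fun {c} hc => ⟨?_⟩⟩⟩
  let hx := fun x : X.obj W.unop =>
    isColimitOfPreserves ((evaluation _ _).obj (op (⟨W.unop, x⟩ : El X))) hc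
  let d : ∀ (s : Cocone (K ⋙ sm a b L ⋙ (evaluation _ _).obj W)) (x : X.obj W.unop),
      a.mem x → (c.pt.obj (op ⟨W.unop, x⟩) →ₗ[L] s.pt) :=
    fun s x _ => ((hx x).desc (Exact_cocone s x)).hom
  refine
    { desc s := ModuleCat.ofHom (smLift a b (d s))
      fac s j := ?_
      uniq s m hm := ?_ }
  · refine ModuleCat.hom_ext (sm_lin_ext fun x g ha hb => ?_)
    have h1 := sm_map_I (a := a) (b := b) (c.ι.app j) ⟨W.unop, x⟩ g
    have h2 := smLift_I (b := b) (d s) ha
      (((c.ι.app j).app (op ⟨W.unop, x⟩)).hom g) (fun h => (hb h).elim)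
    have h3 := congrArg (fun k => k.hom g) ((hx x).fac (Exact_cocone s x) j)
    exact (congrArg _ h1).trans (h2.trans h3)
  · refine ModuleCat.hom_ext (sm_lin_ext fun x g ha hb => ?_)
    have h2 := smLift_I (b := b) (d s) ha g (fun h => (hb h).elim)
    have h3 := (hx x).uniq (Exact_cocone s x)
      (ModuleCat.ofHom (m.hom ∘ₗ smI a b c.pt ⟨W.unop, x⟩)) fun j => by
        refine ModuleCat.hom_ext (LinearMap.ext fun g => ?_)
        have h1 := sm_map_I (a := a) (b := b) (c.ι.app j) ⟨W.unop, x⟩ g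
        have h4 := congrArg (fun k => k.hom (smI a b (K.obj j) ⟨W.unop, x⟩ g)) (hm j)
        exact (congrArg m.hom h1.symm).trans h4
    exact (congrArg (fun k => k.hom g) h3).trans h2.symm

lemma Exact_shortExact_iff (S : ShortComplex (PSh C L)) :
    S.ShortExact ↔ ∀ W : Cᵒᵖ, (S.map ((evaluation _ _).obj W)).ShortExact := by
  have h : JointlyReflectIsomorphisms
      fun W : Cᵒᵖ => ((evaluation _ _).obj W : PSh C L ⥤ ModuleCat.{1} L) :=
    ⟨fun f hf => by
      have : ∀ W, IsIso (f.app W) := hf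
      exact NatIso.isIso_of_isIso_app f⟩
  exact h.shortExact_iff S

/-- The linear map on sections which keeps the common summands. -/
def Exact_back (a b a' b' : X.Sub) (G : PSh (El X) L) (W : C) :
    SmMod a' b' G W →ₗ[L] SmMod a b G W := smLift a' b' fun x _ => smI a b G ⟨W, x⟩

lemma Exact_back_I (a b : X.Sub) {a' b' : X.Sub} {G : PSh (El X) L} {W : C} {x : X.obj W}
    (ha : a'.mem x) (hb : ¬ b'.mem x) (g : G.obj (op ⟨W, x⟩)) :
    Exact_back a b a' b' G W (smI a' b' G ⟨W, x⟩ g) = smI a b G ⟨W, x⟩ g := by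
  have h := smLift_I (b := b') (M := SmMod a b G W) (x := x)
    (fun x (_ : a'.mem x) => smI a b G ⟨W, x⟩) ha g fun h => (hb h).elim
  exact h

/-- Hint: `IsExact.mk'`; short exactness is checked on sections and summand by summand (`smPi`,
`sm_eq_sum`); for direct sums use `preservesColimitsOfShape_of_evaluation` and the universal
property (`smLift`, `sm_lin_ext`), or `ModuleCat.coproductCoconeIsColimit`. -/
instance isExact_sm (a b : X.Sub) : IsExact (sm a b L) := by
  have := Exact_mono (L := L) a b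
  have : PreservesFiniteColimits (sm a b L) := ⟨fun J _ _ => Exact_colim a b J⟩
  have := Functor.preservesHomology_of_preservesMonos_and_cokernels (sm a b L)
  exact
    { lim := Functor.preservesFiniteLimits_of_preservesHomology _
      colim := inferInstance
      sum := fun ι => Exact_colim a b _ }

/-- The data of the map given by enlarging the subpresheaves. -/
def smLeCone {a b a' b' : X.Sub} (ha : a.Le a') (hb : (a.inf b).Le b') (G : PSh (El X) L) :
    SmCone a b G (smObj a' b' G) where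
  φ p _ := smI a' b' G p
  nat f h g := smObj_map_I G f (ha _ h) g
  zero p h g h' := smI_of_b (hb p.x ⟨h, h'⟩) g

variable (L) in
/-- Enlarging the subpresheaves. -/
def smLe {a b a' b' : X.Sub} (ha : a.Le a') (hb : (a.inf b).Le b') : sm a b L ⟶ sm a' b' L where
  app G := (smLeCone ha hb G).desc
  naturality {G G'} τ := sm_hom_ext fun p g h _ => by
    have h1 := sm_map_I (a := a) (b := b) τ p g
    have h2 := (smLeCone ha hb G').desc_I p h ((τ.app (op p)).hom g)
    have h3 := (smLeCone ha hb G).desc_I p h g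
    have h4 := sm_map_I (a := a') (b := b') τ p g
    exact (congrArg _ h1).trans (h2.trans (h4.symm.trans (congrArg _ h3.symm)))

lemma smLe_I {a b a' b' : X.Sub} (ha : a.Le a') (hb : (a.inf b).Le b') (G : PSh (El X) L)
    (p : El X) (h : a.mem p.x) (g : G.obj (op p)) :
    (((smLe L ha hb).app G).app (op p.W)).hom (smI a b G p g) = smI a' b' G p g :=
  (smLeCone ha hb G).desc_I p h g

lemma Exact_back_smLe {a b a' b' : X.Sub} (ha : a.Le a') (hb : (a.inf b).Le b')
    (hi : (a.inf b').Le b) (G : PSh (El X) L) (W : C) (m : SmMod a b G W) :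
    Exact_back a b a' b' G W ((((smLe L ha hb).app G).app (op W)).hom m) = m := by
  have h : Exact_back a b a' b' G W ∘ₗ (((smLe L ha hb).app G).app (op W)).hom = LinearMap.id := by
    refine sm_lin_ext fun x g h h' => ?_
    exact (congrArg _ (smLe_I ha hb G ⟨W, x⟩ h g)).trans
      (Exact_back_I a b (ha x h) (fun e => h' (hi x ⟨h, e⟩)) g)
  exact LinearMap.congr_fun h m

lemma Exact_smLe_back {a b a' b' : X.Sub} (ha : a.Le a') (hb : (a.inf b).Le b')
    (hs : a'.Le (a.sup b')) (G : PSh (El X) L) (W : C) (m : SmMod a' b' G W) :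
    (((smLe L ha hb).app G).app (op W)).hom (Exact_back a b a' b' G W m) = m := by
  have h : (((smLe L ha hb).app G).app (op W)).hom ∘ₗ Exact_back a b a' b' G W = LinearMap.id := by
    refine sm_lin_ext fun x g h h' => ?_
    exact (congrArg _ (Exact_back_I a b h h' g)).trans
      (smLe_I ha hb G ⟨W, x⟩ ((hs x h).resolve_right h') g)
  exact LinearMap.congr_fun h m

/-- The chain level version of a natural transformation. -/
abbrev chT {C' : Type 1} [Category.{0} C'] {F F' : PSh C' L ⥤ PSh C L} [F.Additive] [F'.Additive]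
    (τ : F ⟶ F') : mapC F ⟶ mapC F' := NatTrans.mapHomologicalComplex τ _

section ses

variable {a₁ b₁ a₂ b₂ a₃ b₃ : X.Sub} (h₁ : a₁.Le a₂) (h₁' : (a₁.inf b₁).Le b₂) (h₂ : a₂.Le a₃)
  (h₂' : (a₂.inf b₂).Le b₃) (hz : a₁.Le b₃)

include hz in
lemma smLe_comp_zero : smLe L h₁ h₁' ≫ smLe L h₂ h₂' = 0 := by
  ext G : 2
  refine sm_hom_ext fun p g h _ => ?_
  have e1 := smLe_I h₁ h₁' G p h g
  have e2 := smLe_I h₂ h₂' G p (h₁ _ h) g
  exact (congrArg _ e1).trans (e2.trans (smI_of_b (hz _ h) g))

/-- The short complex of three sums. -/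
def smSC (K : Ch (El X) L) : ShortComplex (Ch C L) :=
  ShortComplex.mk ((chT (smLe L h₁ h₁')).app K) ((chT (smLe L h₂ h₂')).app K) (by
    ext n : 1
    exact congrArg (fun τ => NatTrans.app τ (K.X n)) (smLe_comp_zero (L := L) h₁ h₁' h₂ h₂' hz))

/-- If `a₂ - b₂` is the disjoint union of `a₁ - b₁` and `a₃ - b₃`, the sums form a short exact
sequence (it is split on sections). -/
lemma smSC_shortExact (hi : (a₁.inf b₂).Le b₁) (hs : a₃.Le (a₂.sup b₃))
    (hm : (a₂.inf b₃).Le (a₁.sup b₂)) (K : Ch (El X) L) :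
    (smSC h₁ h₁' h₂ h₂' hz K).ShortExact := by
  refine HomologicalComplex.shortExact_of_degreewise_shortExact _ fun n => ?_
  rw [Exact_shortExact_iff]
  rintro ⟨W⟩
  let f : SmMod a₁ b₁ (K.X n) W →ₗ[L] SmMod a₂ b₂ (K.X n) W :=
    (((smLe L h₁ h₁').app (K.X n)).app (op W)).hom
  let g : SmMod a₂ b₂ (K.X n) W →ₗ[L] SmMod a₃ b₃ (K.X n) W :=
    (((smLe L h₂ h₂').app (K.X n)).app (op W)).hom
  have key : f ∘ₗ Exact_back a₁ b₁ a₂ b₂ (K.X n) W + Exact_back a₂ b₂ a₃ b₃ (K.X n) W ∘ₗ g =
      LinearMap.id := by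
    refine sm_lin_ext fun x u h h' => ?_
    have e1 : g (smI a₂ b₂ (K.X n) ⟨W, x⟩ u) = smI a₃ b₃ (K.X n) ⟨W, x⟩ u :=
      smLe_I h₂ h₂' (K.X n) ⟨W, x⟩ h u
    rw [LinearMap.add_apply, LinearMap.comp_apply, LinearMap.comp_apply, Exact_back_I _ _ h h', e1,
      LinearMap.id_apply]
    by_cases h3 : b₃.mem x
    · rw [smI_of_b (a := a₃) (p := ⟨W, x⟩) h3, map_zero, add_zero]
      exact smLe_I h₁ h₁' (K.X n) ⟨W, x⟩ ((hm x ⟨h, h3⟩).resolve_right h') u
    · rw [smI_of_not_a (a := a₁) (p := ⟨W, x⟩) fun e => h3 (hz x e), map_zero, zero_add]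
      exact Exact_back_I _ _ (h₂ x h) h3 u
  have hinj : Function.Injective f :=
    Function.LeftInverse.injective (Exact_back_smLe h₁ h₁' hi (K.X n) W)
  have hsurj : Function.Surjective g :=
    Function.RightInverse.surjective (Exact_smLe_back h₂ h₂' hs (K.X n) W)
  refine
    { exact := (ShortComplex.moduleCat_exact_iff _).2 fun m hm => ?_
      mono_f := (ModuleCat.mono_iff_injective _).2 hinj
      epi_g := (ModuleCat.epi_iff_surjective _).2 hsurj }
  have e : g m = 0 := hm
  have e' := LinearMap.congr_fun key m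
  rw [LinearMap.add_apply, LinearMap.comp_apply, LinearMap.comp_apply, e, map_zero, add_zero] at e'
  exact ⟨_, e'⟩

end ses

/-- If `a - b = a' - b'` the map is an isomorphism. -/
lemma isIso_smLe {a b a' b' : X.Sub} (ha : a.Le a') (hb : (a.inf b).Le b') (hi : (a.inf b').Le b)
    (hs : a'.Le (a.sup b')) : IsIso (smLe L ha hb) := by
  have : ∀ G, IsIso ((smLe L ha hb).app G) := fun G => by
    have : ∀ W, IsIso (((smLe L ha hb).app G).app W) := fun W => by
      rw [ConcreteCategory.isIso_iff_bijective]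
      exact ⟨Function.LeftInverse.injective (Exact_back_smLe ha hb hi G W.unop),
        Function.RightInverse.surjective (Exact_smLe_back ha hb hs G W.unop)⟩
    exact NatIso.isIso_of_isIso_app _
  exact NatIso.isIso_of_isIso_app _

lemma smI_eq_zero_iff {a b : X.Sub} {G : PSh (El X) L} (p : El X) (g : G.obj (op p)) :
    smI a b G p g = 0 ↔ ¬ a.mem p.x ∨ b.mem p.x ∨ g = 0 := by
  constructor
  · intro h
    by_contra h'
    push Not at h'
    have e := smPi_I_self (G := G) (⟨p.x, h'.1, h'.2.1⟩ : SmIdx a b p.W) g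
    exact h'.2.2 (e.symm.trans ((congrArg _ h).trans (map_zero _)))
  · rintro (h | h | rfl)
    · exact smI_of_not_a h g
    · exact smI_of_b h g
    · exact map_zero _

end Pool.Agent.KEW
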