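import Pool.Agent.P.MP_6277db_ag.KEW.L2b.Sites
import Pool.Agent.P.MP_6277db_ag.KEW.L2g.Cmp

/-!
KEW, layer L2b: families of closed subschemes and the gluing theorem.
-/

set_option backward.isDefEq.respectTransparency false

noncomputable section

open CategoryTheory Limits AlgebraicGeometry Opposite

namespace Pool.Agent.KEW

variable {C : Type 1} [Category.{0} C] {C' : Type 1} [Category.{0} C'] {L : Type 1} [CommRing L]
  {A : Type} [CommRing A]

/-- A closed immersion `i : Z₀ ⟶ T` and a natural family of maps to `T`. -/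
structure ZDat (s : C ⥤ Big A) (X : SP C) where
  /-- the ambient scheme -/
  T : Scheme.{0}
  /-- the closed subscheme -/
  Z₀ : Scheme.{0}
  /-- the closed immersion -/
  i : Z₀ ⟶ T
  closed : IsClosedImmersion i
  /-- the maps to the ambient scheme -/
  t : ∀ p : El X, (s.obj p.W).obj.left ⟶ T
  nat : ∀ {p q : El X} (f : p ⟶ q), (big A).map (s.map f.1) ≫ t q = t p

namespace ZDat

variable {s : C ⥤ Big A} {X : SP C} (d : ZDat s X)

instance : IsClosedImmersion d.i := d.closed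

/-- The map between preimages. -/
def zmap {p q : El X} (f : p ⟶ q) : pullback (d.t p) d.i ⟶ pullback (d.t q) d.i :=
  pullback.lift (pullback.fst _ _ ≫ (big A).map (s.map f.1)) (pullback.snd _ _)
    (by rw [Category.assoc, d.nat f, pullback.condition])

lemma zmap_fst {p q : El X} (f : p ⟶ q) :
    d.zmap f ≫ pullback.fst _ _ = pullback.fst _ _ ≫ (big A).map (s.map f.1) :=
  pullback.lift_fst _ _ _

lemma zmap_snd {p q : El X} (f : p ⟶ q) : d.zmap f ≫ pullback.snd _ _ = pullback.snd _ _ :=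
  pullback.lift_snd _ _ _

lemma zmap_id (p : El X) : d.zmap (𝟙 p) = 𝟙 _ := by
  apply pullback.hom_ext
  · rw [zmap_fst, El.id_val, s.map_id, (big A).map_id, Category.id_comp]
    exact Category.comp_id _
  · rw [zmap_snd, Category.id_comp]

lemma zmap_comp {p q r : El X} (f : p ⟶ q) (g : q ⟶ r) : d.zmap (f ≫ g) = d.zmap f ≫ d.zmap g := by
  apply pullback.hom_ext
  · rw [zmap_fst, Category.assoc, zmap_fst, ← Category.assoc, zmap_fst, El.comp_val, s.map_comp,
      (big A).map_comp, Category.assoc]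
  · rw [zmap_snd, Category.assoc, zmap_snd, zmap_snd]

/-- The preimage of the closed subscheme. -/
def Z : El X ⥤ Big A where
  obj p := Big.mkOver (s.obj p.W) (pullback.fst (d.t p) d.i)
  map {p q} f := Big.homMk (d.zmap f) (by
    change d.zmap f ≫ pullback.fst _ _ ≫ _ = pullback.fst _ _ ≫ _
    rw [← Category.assoc, zmap_fst, Category.assoc, Big.w])
  map_id p := Big.hom_ext (d.zmap_id p)
  map_comp f g := Big.hom_ext (d.zmap_comp f g)

/-- The closed immersion of the preimage. -/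
def fst (p : El X) : (big A).obj (d.Z.obj p) ⟶ (big A).obj (s.obj p.W) := pullback.fst (d.t p) d.i

/-- The map from the preimage to the closed subscheme. -/
def snd (p : El X) : (big A).obj (d.Z.obj p) ⟶ d.Z₀ := pullback.snd (d.t p) d.i

lemma isPullback (p : El X) : IsPullback (d.fst p) (d.snd p) (d.t p) d.i :=
  IsPullback.of_hasPullback _ _

instance (p : El X) : IsClosedImmersion (d.fst p) :=
  inferInstanceAs (IsClosedImmersion (pullback.fst (d.t p) d.i))

lemma map_fst {p q : El X} (f : p ⟶ q) :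
    (big A).map (d.Z.map f) ≫ d.fst q = d.fst p ≫ (big A).map (s.map f.1) := d.zmap_fst f

lemma map_snd {p q : El X} (f : p ⟶ q) : (big A).map (d.Z.map f) ≫ d.snd q = d.snd p :=
  d.zmap_snd f

/-- The closed immersions as a natural transformation. -/
def ι : d.Z ⟶ El.proj X ⋙ s where
  app p := Big.homMk (d.fst p) rfl
  naturality _ _ f := Big.hom_ext (d.map_fst f)

lemma range_fst (p : El X) : Set.range (d.fst p) = d.t p ⁻¹' Set.range d.i :=
  Scheme.Pullback.range_fst _ _

/-- The elements whose image misses the closed subscheme. -/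
def miss : X.Sub where
  mem {W} x := ∀ w, d.t ⟨W, x⟩ w ∉ Set.range d.i
  res f x h w := by
    rw [← d.nat (El.along f x)]
    exact h _

lemma locally_miss (hu : IsSite (s ⋙ big A)) (p : El X) (w : (s ⋙ big A).obj p.W)
    (hw : w ∉ Set.range (d.fst p)) :
    Locally (El.proj X ⋙ s ⋙ big A) p w fun q _ => d.miss.mem q.x := by
  refine ((hu.el X).locally_open (W := p)
    (d.fst p).isClosedEmbedding.isClosed_range.isOpen_compl hw).mono fun q f hf y hy => ?_
  refine hf ⟨y, rfl⟩ ?_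
  rw [range_fst]
  rw [← d.nat f, Scheme.Hom.comp_apply] at hy
  exact hy

/-- Etale neighbourhoods in the closed subschemes lift. -/
theorem liftsNb (hu : IsSite (s ⋙ big A)) {u' : C' ⥤ Scheme.{0}} (hu' : IsSite u')
    (lam : El X ⥤ C') (e : lam ⋙ u' ≅ d.Z ⋙ big A) {a b : X.Sub} (h : (a.inf d.miss).Le b) :
    LiftsNb (s ⋙ big A) u' lam a b := by
  intro W x w ha
  by_cases hw : w ∈ Set.range (d.fst ⟨W, x⟩)
  swap
  · exact Or.inl ((Locally.of_el (d.locally_miss hu ⟨W, x⟩ w hw)).mono fun V f hm =>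
      h _ ⟨a.res f ha, hm⟩)
  obtain ⟨z, rfl⟩ := hw
  refine Or.inr ⟨e.inv.app ⟨W, x⟩ z, fun V' g y ⟨het, hy, hres⟩ => ?_⟩
  have hz : (u'.map g ≫ e.hom.app ⟨W, x⟩) y = z := by
    rw [Scheme.Hom.comp_apply, hy]
    exact (Scheme.Hom.comp_apply _ _ _).symm.trans (by rw [Iso.inv_hom_id_app]; rfl)
  obtain ⟨V, f, v, _, hv, _, hl⟩ := GG_lift (d.fst ⟨W, x⟩) (u'.map g ≫ e.hom.app ⟨W, x⟩) y (by
    rw [Scheme.residueFieldMap_comp]
    infer_instance)
  have hv' : f v = d.fst ⟨W, x⟩ z := hv.trans (congrArg _ hz)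
  rw [← hv']
  refine (hu.locally_of_etale (W := W) f v).mono ?_
  rintro V₁ φ ⟨k, hk⟩
  have n1 : u'.map (lam.map (El.along φ x)) ≫ e.hom.app ⟨W, x⟩ =
      e.hom.app ⟨V₁, X.res φ x⟩ ≫ (big A).map (d.Z.map (El.along φ x)) :=
    e.hom.naturality (El.along φ x)
  obtain ⟨k', hk'⟩ := hl _ (u'.map (lam.map (El.along φ x)) ≫ e.hom.app ⟨W, x⟩)
    (e.hom.app ⟨V₁, X.res φ x⟩ ≫ d.fst ⟨V₁, X.res φ x⟩ ≫ k) (by
      rw [n1, Category.assoc, d.map_fst, Category.assoc, Category.assoc, hk]
      rfl)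
  rw [← Category.assoc, cancel_mono] at hk'
  obtain ⟨k'', -, hk''⟩ := hu'.exists_lift _ g k' hk'
  exact Or.inr ⟨k'', hk''⟩

variable (L) in
/-- Restriction of sections to the closed subschemes. -/
def toZ (a b : X.Sub) : pb L (El.proj X ⋙ s) ⋙ sm a b L ⟶ pb L d.Z ⋙ sm a b L :=
  Functor.whiskerRight (pbT L d.ι) (sm a b L)

lemma toZ_I (a b : X.Sub) (G : PSh (Big A) L) (p : El X) (g : G.obj (op (s.obj p.W))) :
    (((d.toZ L a b).app G).app (op p.W)).hom (smI a b ((pb L (El.proj X ⋙ s)).obj G) p g) =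
      smI a b ((pb L d.Z).obj G) p ((G.map (d.ι.app p).op).hom g) :=
  sm_map_I ((pbT L d.ι).app G) p g

/-- The maps from an element which misses the closed subscheme. -/
def missB (Y : Big A) : (SP.yon d.Z Y).Sub where
  mem {p} _ := d.miss.mem p.x
  res f _ h := El.mem_of_hom f h

lemma glue_rep (hu : IsSite (s ⋙ big A)) {a b : X.Sub} (h : (a.inf d.miss).Le b) (Y : Big A)
    (hY : Smooth Y.obj.hom) :
    WG (NGen (s ⋙ big A)) ((sgl 0).map ((d.toZ L a b).app ((rep (Big A) L).obj Y))) := by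
  have : ∀ p, IsClosedImmersion (gfs d.ι p) := fun p =>
    inferInstanceAs (IsClosedImmersion (d.fst p))
  have h1 := wg_gT (L := L) d.ι (hu.el X) (m := d.missB Y)
    (fun p w hw => Locally.to_el (d.locally_miss hu p.W w hw)) hY (cst L _)
  refine (wg_iff_of_sq ?_
    (wg_sm_map_of_bij (gK₁ L d.ι Y (d.missB Y)) fun p ha hb =>
      gK₁_bij d.ι Y _ p fun _ hm => hb (h _ ⟨ha, hm⟩))
    (wg_sm_map_of_bij (gK₂ L Y (d.missB Y)) fun p ha hb =>
      gK₂_bij Y _ p fun _ hm => hb (h _ ⟨ha, hm⟩))).2 ((presW_sm_id a b).sgl_map h1)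
  have e := congrArg (fun k => (sgl 0).map ((sm a b L).map k)) (gK_sq (L := L) d.ι Y (d.missB Y))
  simp only [Functor.map_comp] at e
  exact e

/-- The gluing theorem. -/
theorem glue [IsNoetherianRing A] (hu : IsSite (s ⋙ big A)) {a b : X.Sub}
    (h : (a.inf d.miss).Le b) {E : Ch (Big A) L} (hE : SmGenerated A L E) :
    WG (NGen (s ⋙ big A)) ((chT (d.toZ L a b)).app E) := by
  refine Loc.natTrans (d.toZ L a b) ?_ hE
  rintro K (hK | ⟨Y, hY, rfl⟩)
  · exact WG.of_loc _
      ((presW_sm_of_iso hu (isSite_big A) (El.proj X ⋙ s) (𝟙 _) a b).loc (Loc.gen _ hK))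
      ((presW_sm d.Z (Functor.whiskerRight d.ι (big A))
        (d.liftsNb hu (isSite_big A) d.Z (Iso.refl _) h)).loc (Loc.gen _ hK))
  · exact (wg_chT_sgl_iff _ _).2 (d.glue_rep hu h Y hY)

end ZDat

end Pool.Agent.KEW
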