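import Pool.Agent.P.MP_6277db_ag.KEW.L2b.Exact

/-!
KEW, layer L2b: local bijectivity criteria for sums and the finite cover lemma.
-/

set_option backward.isDefEq.respectTransparency false

noncomputable section

open CategoryTheory Limits AlgebraicGeometry Opposite ZeroObject

namespace Pool.Agent.KEW

variable {C : Type 1} [Category.{0} C] {L : Type 1} [CommRing L] {X X' : SP C}

variable {u : C ⥤ Scheme.{0}}

/-- Local surjectivity may be tested on generators. -/
lemma sm_locSurj {a b : X.Sub} {G : PSh (El X) L} {F : PSh C L} (φ : F ⟶ smObj a b G)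
    (h : ∀ (W : C) (x : X.obj W) (g : G.obj (op ⟨W, x⟩)) (w : u.obj W), a.mem x → ¬ b.mem x →
      Locally u W w fun V f => ∃ m : F.obj (op V), (φ.app (op V)).hom m =
        smI a b G ⟨V, X.res f x⟩ ((G.map (El.along f x).op).hom g)) : LocSurj u φ := by
  intro W m
  refine Site_im_locally ?_
  induction m using sm_induction with
  | zero => exact zero_mem _
  | add m m' h h' => exact add_mem h h'
  | gen x g ha _ =>
    intro V f y
    have e : ∀ (V' : C) (f' : V' ⟶ V), (smObj a b G).map (f' ≫ f).op (smI a b G ⟨W, x⟩ g) =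
        smI a b G ⟨V', X.res f' (X.res f x)⟩ ((G.map (El.along f' (X.res f x)).op).hom
          ((G.map (El.along f x).op).hom g)) := fun V' f' => by
      rw [Site_res]
      exact (congrArg _ (smObj_map_I' G f ha g)).trans (smObj_map_I' G f' (a.res f ha) _)
    by_cases hb : b.mem (X.res f x)
    · refine Locally.of_forall y ⟨0, ?_⟩
      rw [e, map_zero]
      exact (smI_of_b (p := ⟨V, _⟩) (b.res _ hb) _).symm
    · exact (h V (X.res f x) ((G.map (El.along f x).op).hom g) y (a.res f ha) hb).mono
        fun V' f' ⟨m, hm⟩ => ⟨m, hm.trans (e V' f').symm⟩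

/-- A sum all of whose generators die locally is locally zero. -/
lemma sm_locZero {a b : X.Sub} {G : PSh (El X) L}
    (h : ∀ (W : C) (x : X.obj W) (g : G.obj (op ⟨W, x⟩)) (w : u.obj W), a.mem x → ¬ b.mem x →
      Locally u W w fun V f => smI a b G ⟨V, X.res f x⟩ ((G.map (El.along f x).op).hom g) = 0) :
    LocZero u (smObj a b G) :=
  LocZero.of_locSurj (φ := (0 : (0 : PSh C L) ⟶ smObj a b G))
    (sm_locSurj _ fun W x g w ha hb => (h W x g w ha hb).mono fun _ _ hf =>
      ⟨0, (map_zero _).trans hf.symm⟩) (LocZero.of_isZero (isZero_zero _))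

/-- A map of presheaves of sets. -/
structure SP.Hom (X X' : SP C) where
  /-- the map on sections -/
  app : ∀ {W : C}, X.obj W → X'.obj W
  nat : ∀ {V W : C} (f : V ⟶ W) (x : X.obj W), app (X.res f x) = X'.res f (app x)

/-- The induced functor on elements. -/
def SP.Hom.el (t : X.Hom X') : El X ⥤ El X' where
  obj p := ⟨p.W, t.app p.x⟩
  map {p q} f := ⟨f.1, (t.nat f.1 q.x).symm.trans (congrArg t.app f.2)⟩

/-- Generators of the sum over `W`. -/
abbrev Local_Gen (G : PSh (El X) L) (W : C) : Type 1 := Σ x : X.obj W, G.obj (op ⟨W, x⟩)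

/-- The section attached to a generator. -/
def Local_val (a b : X.Sub) {G : PSh (El X) L} {W : C} (e : Local_Gen G W) :
    (smObj a b G).obj (op W) := smI a b G ⟨W, e.1⟩ e.2

/-- Restriction of generators. -/
def Local_res {G : PSh (El X) L} {V W : C} (f : V ⟶ W) (e : Local_Gen G W) : Local_Gen G V :=
  ⟨X.res f e.1, (G.map (El.along f e.1).op).hom e.2⟩

lemma Local_merge (a b : X.Sub) {G : PSh (El X) L} {W : C} (e e' : Local_Gen G W)
    (h : e.1 = e'.1) :
    ∃ z : Local_Gen G W, z.1 = e.1 ∧ Local_val a b z = Local_val a b e + Local_val a b e' := by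
  obtain ⟨x, g⟩ := e
  obtain ⟨x', g'⟩ := e'
  obtain rfl : x = x' := h
  exact ⟨⟨x, g + g'⟩, rfl, map_add (smI a b G ⟨W, x⟩) g g'⟩

/-- Criterion for local injectivity of a map of sums which sends generators to generators.
Hint: write `m = ∑ ι x (g x)` (`sm_eq_sum`), shrink so that any two `x, x'` with `t x = t x'` become
equal or both lie in `b`, and treat the fibres of `t` one after the other (`smPi`). -/
lemma sm_locInj {a b : X.Sub} {a' b' : X'.Sub} {G : PSh (El X) L} {G' : PSh (El X') L}
    (F : smObj a b G ⟶ smObj a' b' G') (t : X.Hom X') (φ : G ⟶ (pb L t.el).obj G')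
    (hF : ∀ (p : El X) (g : G.obj (op p)), a.mem p.x →
      (F.app (op p.W)).hom (smI a b G p g) = smI a' b' G' (t.el.obj p) ((φ.app (op p)).hom g))
    (h₁ : ∀ (W : C) (x : X.obj W) (g : G.obj (op ⟨W, x⟩)) (w : u.obj W), a.mem x →
      smI a' b' G' (t.el.obj ⟨W, x⟩) ((φ.app (op ⟨W, x⟩)).hom g) = 0 →
      Locally u W w fun V f => smI a b G ⟨V, X.res f x⟩ ((G.map (El.along f x).op).hom g) = 0)
    (h₂ : ∀ (W : C) (x x' : X.obj W) (w : u.obj W), a.mem x → a.mem x' → t.app x = t.app x' →
      Locally u W w fun _ f => X.res f x = X.res f x' ∨ (b.mem (X.res f x) ∧ b.mem (X.res f x'))) :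
    LocInj u F := by
  classical
  have key : ∀ (ι : Type) (n : ℕ) (s : Finset ι), s.card = n → ∀ (W : C)
      (e : ι → Local_Gen G W), (∀ i ∈ s, a.mem (e i).1) →
      F.app (op W) (∑ i ∈ s, Local_val a b (e i)) = 0 →
      LocZeroEl u (F := smObj a b G) (∑ i ∈ s, Local_val a b (e i)) := by
    intro ι n
    induction n using Nat.strong_induction_on with
    | _ n ih =>
    intro s hs W e he h0 w
    have hres : ∀ (V : C) (f : V ⟶ W), (smObj a b G).map f.op (∑ i ∈ s, Local_val a b (e i)) =
        ∑ i ∈ s, Local_val a b (Local_res f (e i)) := fun V f => by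
      rw [map_sum]
      exact Finset.sum_congr rfl fun i hi => smObj_map_I' G f (he i hi) _
    by_cases hc : ∃ i ∈ s, ∃ j ∈ s, i ≠ j ∧ t.app (e i).1 = t.app (e j).1
    · obtain ⟨i, hi, j, hj, hij, ht⟩ := hc
      refine (h₂ W _ _ w (he i hi) (he j hj) ht).bind fun V f hf y => ?_
      obtain ⟨e', he', h1⟩ : ∃ e' : ι → Local_Gen G V, (∀ k ∈ s.erase j, a.mem (e' k).1) ∧
          ∑ k ∈ s, Local_val a b (Local_res f (e k)) = ∑ k ∈ s.erase j, Local_val a b (e' k) := by
        rcases hf with hf | hf
        · obtain ⟨z, hz, hz'⟩ := Local_merge a b (Local_res f (e i)) (Local_res f (e j)) hf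
          have hi' : i ∈ s.erase j := Finset.mem_erase.2 ⟨hij, hi⟩
          refine ⟨Function.update (fun k => Local_res f (e k)) i z, fun k hk => ?_, ?_⟩
          · by_cases hki : k = i
            · subst hki
              rw [Function.update_self, hz]
              exact a.res f (he k hi)
            · rw [Function.update_of_ne hki]
              exact a.res f (he k (Finset.mem_of_mem_erase hk))
          · rw [← Finset.add_sum_erase _ _ hj, ← Finset.add_sum_erase _ _ hi',
              ← Finset.add_sum_erase _ _ hi', Function.update_self, hz', ← add_assoc,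
              add_comm (Local_val a b (Local_res f (e j)))]
            refine congrArg _ (Finset.sum_congr rfl fun k hk => ?_)
            rw [Function.update_of_ne (Finset.ne_of_mem_erase hk)]
        · refine ⟨fun k => Local_res f (e k),
            fun k hk => a.res f (he k (Finset.mem_of_mem_erase hk)), ?_⟩
          have h2 : Local_val a b (Local_res f (e j)) = 0 := smI_of_b (p := ⟨V, _⟩) hf.2 _
          rw [← Finset.add_sum_erase _ _ hj, h2, zero_add]
      refine (ih _ (hs ▸ Finset.card_erase_lt_of_mem hj) (s.erase j) rfl V e' he' ?_ y).mono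
        fun V' g hg => ?_
      · rw [← h1, ← hres, Site_nat, h0, map_zero]
      · rw [Site_res, hres, h1]
        exact hg
    · have hsum : ∑ i ∈ s, smI a' b' G' ⟨W, t.app (e i).1⟩
          ((φ.app (op ⟨W, (e i).1⟩)).hom (e i).2) = (0 : SmMod a' b' G' W) := by
        rw [map_sum] at h0
        exact (Finset.sum_congr rfl fun i hi => (hF ⟨W, (e i).1⟩ (e i).2 (he i hi)).symm).trans h0
      have hz : ∀ i ∈ s, F.app (op W) (Local_val a b (e i)) = 0 := fun i hi => by
        refine (hF ⟨W, (e i).1⟩ (e i).2 (he i hi)).trans ?_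
        by_cases hm : a'.mem (t.app (e i).1) ∧ ¬ b'.mem (t.app (e i).1)
        · have h3 := congrArg (smPi a' b' G' W ⟨_, hm⟩) hsum
          rw [map_sum, map_zero, Finset.sum_eq_single_of_mem i hi fun k hk hki =>
            smPi_I_ne _ (fun h4 => hc ⟨k, hk, i, hi, hki, h4⟩) _] at h3
          have h4 := (smPi_I_self (G := G') ⟨_, hm⟩ _).symm.trans h3
          exact (congrArg _ h4).trans (map_zero _)
        · have : smI a' b' G' (t.el.obj ⟨W, (e i).1⟩) = 0 := dif_neg hm
          rw [this]
          rfl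
      have hmem : ∑ i ∈ s, Local_val a b (e i) ∈ Site_im u (0 : smObj a b G ⟶ smObj a b G) W := by
        refine sum_mem fun i hi V f y => ?_
        have h3 : (smObj a b G).map f.op (Local_val a b (e i)) =
            Local_val a b (Local_res f (e i)) := smObj_map_I' G f (he i hi) _
        refine (h₁ V _ (Local_res f (e i)).2 y (a.res f (he i hi)) ?_).mono fun V' g hg => ⟨0, ?_⟩
        · refine (hF ⟨V, _⟩ _ (a.res f (he i hi))).symm.trans ?_
          change F.app (op V) (Local_val a b (Local_res f (e i))) = 0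
          rw [← h3, Site_nat, hz i hi, map_zero]
        · rw [map_zero, Site_res, h3]
          exact hg.symm.trans (smObj_map_I' G g (a.res f (he i hi)) _).symm
      exact (Site_im_locally hmem w).mono fun V f ⟨_, hm⟩ => hm.symm
  intro W m hm
  obtain ⟨s, hs, -⟩ := sm_eq_sum m
  rw [hs] at hm ⊢
  exact key _ _ s rfl W (fun x => ⟨x.1, smPi a b G W x m⟩) (fun x _ => x.2.1) hm

/-- Enlarging the subpresheaves is a local equivalence if `a - b` and `a' - b'` agree locally. -/
lemma wg_smLe {a b a' b' : X.Sub} (ha : a.Le a') (hb : (a.inf b).Le b')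
    (hi : ∀ (W : C) (x : X.obj W) (w : u.obj W), a.mem x → b'.mem x →
      Locally u W w fun _ f => b.mem (X.res f x))
    (hs : ∀ (W : C) (x : X.obj W) (w : u.obj W), a'.mem x →
      Locally u W w fun _ f => a.mem (X.res f x) ∨ b'.mem (X.res f x)) (K : Ch (El X) L) :
    WG (NisGen u) ((chT (smLe L ha hb)).app K) := by
  refine wg_nis_of_terms _ (fun n => ?_) fun n => ?_
  · refine sm_locInj ((smLe L ha hb).app (K.X n)) ⟨fun x => x, fun _ _ => rfl⟩ (𝟙 (K.X n))
      (fun p g h => smLe_I ha hb _ p h g) (fun W x g w h h0 => ?_)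
      fun W x x' w _ _ h => Locally.of_forall w (Or.inl (congrArg _ h))
    rcases (smI_eq_zero_iff _ _).1 h0 with h1 | h1 | h1
    · exact absurd (ha x h) h1
    · exact (hi W x w h h1).mono fun V f hf => smI_of_b (p := ⟨V, _⟩) hf _
    · obtain rfl : g = 0 := h1
      exact Locally.of_forall w (by rw [map_zero, map_zero])
  · refine sm_locSurj ((smLe L ha hb).app (K.X n)) fun W x g w h _ =>
      (hs W x w h).mono fun V f hf => ?_
    rcases hf with hf | hf
    · exact ⟨_, smLe_I ha hb _ ⟨V, _⟩ hf _⟩
    · exact ⟨0, (map_zero _).trans (smI_of_b (p := ⟨V, _⟩) hf _).symm⟩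

/-- The intersection of `a` with the members of a family indexed by a finite set. -/
def SP.Sub.infFin {ι : Type} (a : X.Sub) (c : ι → X.Sub) (s : Finset ι) : X.Sub :=
  ⟨fun x => a.mem x ∧ ∀ i ∈ s, (c i).mem x,
    fun f _ h => ⟨a.res f h.1, fun i hi => (c i).res f (h.2 i hi)⟩⟩

/-- The union of the members of a family indexed by a finite set. -/
def Local_sup {ι : Type} (c : ι → X.Sub) (s : Finset ι) : X.Sub :=
  ⟨fun x => ∃ i ∈ s, (c i).mem x, fun f _ ⟨i, hi, h⟩ => ⟨i, hi, (c i).res f h⟩⟩

lemma Local_ext {a b : X.Sub} (h : ∀ (W : C) (x : X.obj W), a.mem x ↔ b.mem x) : a = b := by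
  obtain ⟨a, _⟩ := a
  obtain ⟨b, _⟩ := b
  obtain rfl : @a = @b := funext fun W => funext fun x => propext (h W x)
  rfl

/-- The finite cover lemma. Hint: prove by induction on `s`, for all `a` at once, that the sum over
`a ⊓ ⋃_{i ∈ s} c i` is in `Loc Gn` (two uses of `smSC_shortExact`, one of `isIso_smLe`), then
`wg_smLe`. -/
lemma loc_sm_of_cover {Gn : Ch C L → Prop} (hG : ∀ K, NisGen u K → Loc Gn K) {ι : Type}
    (s : Finset ι) (a b : X.Sub) (c : ι → X.Sub) (K : Ch (El X) L)
    (hc : ∀ (W : C) (x : X.obj W) (w : u.obj W), a.mem x →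
      Locally u W w fun _ f => b.mem (X.res f x) ∨ ∃ i ∈ s, (c i).mem (X.res f x))
    (h : ∀ t : Finset ι, t ⊆ s → t.Nonempty → Loc Gn ((mapC (sm (a.infFin c t) b L)).obj K)) :
    Loc Gn ((mapC (sm a b L)).obj K) := by
  classical
  have key : ∀ (s : Finset ι) (a : X.Sub),
      (∀ t : Finset ι, t ⊆ s → t.Nonempty → Loc Gn ((mapC (sm (a.infFin c t) b L)).obj K)) →
      Loc Gn ((mapC (sm (a.inf (Local_sup c s)) b L)).obj K) := by
    intro s
    induction s using Finset.induction_on with
    | empty =>
      intro a _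
      exact hG _ (NisGen.of_terms fun n => sm_locZero fun W x g w ⟨_, i, hi, _⟩ =>
        absurd hi (Finset.notMem_empty i))
    | insert j s hj ih =>
      intro a h
      have h1 := ih a fun t ht ht' => h t (ht.trans (Finset.subset_insert j s)) ht'
      have h2 := ih (a.infFin c {j}) fun t ht _ => by
        have e : (a.infFin c {j}).infFin c t = a.infFin c (insert j t) :=
          Local_ext fun W x => by
            simp only [SP.Sub.infFin, Finset.mem_singleton, forall_eq, Finset.mem_insert,
              forall_eq_or_imp, and_assoc]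
        rw [e]
        exact h _ (Finset.insert_subset_insert j ht) (Finset.insert_nonempty j t)
      have h3 := h {j} (by simp) (Finset.singleton_nonempty j)
      have h4 : Loc Gn ((mapC (sm (a.inf (Local_sup c (insert j s)))
          (b.sup (Local_sup c s)) L)).obj K) := by
        refine Loc.right _ (smSC_shortExact (a₁ := (a.infFin c {j}).inf (Local_sup c s)) (b₁ := b)
          (a₂ := a.infFin c {j}) (b₂ := b) (a₃ := a.inf (Local_sup c (insert j s)))
          (b₃ := b.sup (Local_sup c s)) (fun _ _ h => h.1) (fun _ _ h => h.2)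
          (fun _ _ h => ⟨h.1, j, Finset.mem_insert_self j s, h.2 j (Finset.mem_singleton_self j)⟩)
          (fun _ _ h => Or.inl h.2) (fun _ _ h => Or.inr h.2) (fun _ _ h => h.2) ?_ ?_ K) h2 h3
        · rintro W x ⟨h5, i, hi, hx⟩
          rcases Finset.mem_insert.1 hi with hi | hi
          · exact Or.inl ⟨h5, fun k hk => (Finset.mem_singleton.1 hk).trans hi.symm ▸ hx⟩
          · exact Or.inr (Or.inr ⟨i, hi, hx⟩)
        · rintro W x ⟨h, h' | h'⟩
          · exact Or.inr h'
          · exact Or.inl ⟨h, h'⟩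
      refine Loc.mid _ (smSC_shortExact (a₁ := a.inf (Local_sup c s)) (b₁ := b)
        (a₂ := a.inf (Local_sup c (insert j s))) (b₂ := b)
        (a₃ := a.inf (Local_sup c (insert j s))) (b₃ := b.sup (Local_sup c s))
        (fun _ _ ⟨h, i, hi, hx⟩ => ⟨h, i, Finset.mem_insert_of_mem hi, hx⟩) (fun _ _ h => h.2)
        (fun _ _ h => h) (fun _ _ h => Or.inl h.2) (fun _ _ h => Or.inr h.2) (fun _ _ h => h.2)
        (fun _ _ h => Or.inl h) ?_ K) h1 h4
      rintro W x ⟨h, h' | h'⟩
      · exact Or.inr h'
      · exact Or.inl ⟨h.1, h'⟩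
  refine (WG.trans hG (wg_smLe (a := a.inf (Local_sup c s)) (b := b) (fun _ _ h => h.1)
    (fun _ _ h => h.2) (fun W x w _ h => Locally.of_forall w (b.res _ h))
    (fun W x w h => (hc W x w h).mono fun V f hf => ?_) K)).loc_iff.1 (key s a h)
  exact hf.symm.imp (fun h' => ⟨a.res f h, h'⟩) id

end Pool.Agent.KEW
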