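import Pool.Agent.P.MP_6277db_ag.KEW.L2b.Tens

/-!
KEW, layer L2b: powers of the Tate object and the cylinder functor.
-/

set_option backward.isDefEq.respectTransparency false

noncomputable section

open CategoryTheory Limits AlgebraicGeometry Opposite MonoidalCategory

namespace Pool.Agent.KEW

variable {C : Type 1} [Category.{0} C] {L : Type 1} [CommRing L] {u : C ⥤ Scheme.{0}}

variable (u) in
/-- The presheaf of families of functions. -/
def OS (ι : Type) : SP C where
  obj W := ι → Γ(u.obj W, ⊤)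
  res f y i := (u.map f).appTop (y i)
  res_id W y := by
    funext i
    simp
  res_comp f g y := by
    funext i
    simp

variable (u) in
/-- Families in which some member is a unit. -/
def unitSub (ι : Type) : (OS u ι).Sub :=
  ⟨fun y => ∃ i, IsUnit (y i), fun f _ ⟨i, h⟩ => ⟨i, h.map (u.map f).appTop.hom⟩⟩

variable (L u) in
/-- Powers of the Tate object. -/
def tN : ℕ → (PSh C L ⥤ PSh C L)
  | 0 => 𝟭 _
  | n + 1 => tN n ⋙ RS.unit.T L u

instance isExact_tN : ∀ n, IsExact (tN L u n)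
  | 0 => inferInstanceAs (IsExact (𝟭 _))
  | n + 1 =>
    have := isExact_tN n
    inferInstanceAs (IsExact (tN L u n ⋙ RS.unit.T L u))

/-- The generator `g ⊗ [y 0] ⊗ ... ⊗ [y (n-1)]`. -/
def tpN (F : PSh C L) (W : C) :
    ∀ (n : ℕ) (_ : Fin n → Γ(u.obj W, ⊤)), F.obj (op W) →ₗ[L] ((tN L u n).obj F).obj (op W)
  | 0, _ => LinearMap.id
  | n + 1, y => RS.unit.tp ((tN L u n).obj F) W (y (Fin.last n)) ∘ₗ tpN F W n (Fin.init y)

lemma presW_tN (n : ℕ) : PresW (NGen u) (NGen u) (mapC (tN L u n)) := by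
  induction n with
  | zero => exact fun _ _ _ hf => hf
  | succ n ih => exact ih.comp (presW_T RS.unit)

lemma Pow_tpN_succ {n : ℕ} (F : PSh C L) (W : C) (y : Fin (n + 1) → Γ(u.obj W, ⊤))
    (g : F.obj (op W)) : tpN F W (n + 1) y g =
      RS.unit.tp ((tN L u n).obj F) W (y (Fin.last n)) (tpN F W n (Fin.init y) g) := rfl

lemma Pow_lin_ext {n : ℕ} {F : PSh C L} {W : C} {M : Type 1} [AddCommGroup M] [Module L M]
    {f f' : ((tN L u n).obj F).obj (op W) →ₗ[L] M}
    (h : ∀ y g, f (tpN F W n y g) = f' (tpN F W n y g)) : f = f' := by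
  induction n with
  | zero => exact LinearMap.ext fun g => h Fin.elim0 g
  | succ n ih =>
    refine RS.unit.lin_ext (F := (tN L u n).obj F) fun a m => ?_
    refine LinearMap.congr_fun (ih (f := f ∘ₗ RS.unit.tp ((tN L u n).obj F) W a)
      (f' := f' ∘ₗ RS.unit.tp ((tN L u n).obj F) W a) fun y g => ?_) m
    have h1 := h (Fin.snoc y a) g
    rw [Pow_tpN_succ, Fin.snoc_last, Fin.init_snoc] at h1
    exact h1

lemma Pow_res_tpN {n : ℕ} (F : PSh C L) {V W : C} (f : V ⟶ W) (y : Fin n → Γ(u.obj W, ⊤))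
    (g : F.obj (op W)) : (((tN L u n).obj F).map f.op).hom (tpN F W n y g) =
      tpN F V n (fun i => (u.map f).appTop (y i)) ((F.map f.op).hom g) := by
  induction n with
  | zero => rfl
  | succ n ih =>
    exact (RS.unit.map_tp ((tN L u n).obj F) f (y (Fin.last n)) _).trans
      (congrArg (RS.unit.tp ((tN L u n).obj F) V _) (ih (Fin.init y)))

lemma Pow_tpN_unit {n : ℕ} (F : PSh C L) (W : C) (y : Fin n → Γ(u.obj W, ⊤)) (i : Fin n)
    (h : IsUnit (y i)) (g : F.obj (op W)) : tpN F W n y g = 0 := by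
  induction n with
  | zero => exact i.elim0
  | succ n ih =>
    rw [Pow_tpN_succ]
    induction i using Fin.lastCases with
    | last => exact RS.unit.tp_of_mem _ W h _
    | cast i =>
      rw [ih (Fin.init y) i h]
      exact map_zero _

lemma tN_hom_ext {n : ℕ} {F M : PSh C L} {f f' : (tN L u n).obj F ⟶ M}
    (h : ∀ W y g, (f.app (op W)).hom (tpN F W n y g) = (f'.app (op W)).hom (tpN F W n y g)) :
    f = f' := by
  ext W : 2
  exact ModuleCat.hom_ext (Pow_lin_ext (h W.unop))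

lemma tN_map_tpN {n : ℕ} {F F' : PSh C L} (φ : F ⟶ F') (W : C) (y : Fin n → Γ(u.obj W, ⊤))
    (g : F.obj (op W)) :
    (((tN L u n).map φ).app (op W)).hom (tpN F W n y g) = tpN F' W n y ((φ.app (op W)).hom g) := by
  induction n with
  | zero => rfl
  | succ n ih =>
    exact (RS.unit.T_map_tp ((tN L u n).map φ) W (y (Fin.last n)) _).trans
      (congrArg (RS.unit.tp ((tN L u n).obj F') W _) (ih (Fin.init y)))

section sec

variable {X : SP C} (a b : X.Sub) (σ : ∀ W, X.obj W)
  (hσ : ∀ {V W : C} (f : V ⟶ W), X.res f (σ W) = σ V) (ha : ∀ W, a.mem (σ W))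

/-- The map into a sum given by a global section. -/
def Pow_sec (F : PSh C L) : F ⟶ (pb L (El.proj X) ⋙ sm a b L).obj F where
  app W := ModuleCat.ofHom (smI a b ((pb L (El.proj X)).obj F) ⟨W.unop, σ W.unop⟩)
  naturality {W V} f := ModuleCat.hom_ext (LinearMap.ext fun g =>
    (smObj_map_I ((pb L (El.proj X)).obj F) (p := ⟨V.unop, σ V.unop⟩) (q := ⟨W.unop, σ W.unop⟩)
      ⟨f.unop, hσ f.unop⟩ (ha W.unop) g).symm)

variable (L) in
/-- The same as a natural transformation. -/
def Pow_secN : 𝟭 (PSh C L) ⟶ pb L (El.proj X) ⋙ sm a b L where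
  app F := Pow_sec a b σ hσ ha F
  naturality {F F'} φ := by
    ext W : 2
    exact ModuleCat.hom_ext (LinearMap.ext fun g =>
      (sm_map_I ((pb L (El.proj X)).map φ) ⟨W.unop, σ W.unop⟩ g).symm)

/-- The data of the codiagonal. -/
def Pow_prCone (F : PSh C L) : SmCone a .bot ((pb L (El.proj X)).obj F) F where
  φ _ _ := LinearMap.id
  nat _ _ _ := rfl
  zero _ _ _ h := h.elim

variable (L) in
/-- The codiagonal. -/
def Pow_pr : pb L (El.proj X) ⋙ sm a .bot L ⟶ 𝟭 (PSh C L) where
  app F := (Pow_prCone a F).desc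
  naturality {F F'} φ := sm_hom_ext fun p g h _ => by
    have h1 := sm_map_I (a := a) (b := .bot) ((pb L (El.proj X)).map φ) p g
    have h2 := (Pow_prCone a F').desc_I p h ((((pb L (El.proj X)).map φ).app (op p)).hom g)
    have h3 := (Pow_prCone a F).desc_I p h g
    exact (congrArg _ h1).trans (h2.trans (congrArg (φ.app (op p.W)).hom h3.symm))

lemma Pow_sec_pr (F : PSh C L) :
    (Pow_secN L a .bot σ hσ ha).app F ≫ (Pow_pr L a).app F = 𝟙 F := by
  ext W : 2
  exact ModuleCat.hom_ext (LinearMap.ext fun g =>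
    (Pow_prCone a F).desc_I ⟨W.unop, σ W.unop⟩ (ha W.unop) g)

lemma Pow_isIso_sec (h : ∀ W x, a.mem x → x = σ W) (F : PSh C L) :
    IsIso ((Pow_secN L a .bot σ hσ ha).app F) := by
  refine ⟨(Pow_pr L a).app F, Pow_sec_pr a σ hσ ha F, sm_hom_ext fun p g hp _ => ?_⟩
  obtain ⟨W, x⟩ := p
  obtain rfl := h W x hp
  exact congrArg _ ((Pow_prCone a F).desc_I ⟨W, σ W⟩ hp g)

end sec

variable (L u) in
/-- The sum over the families of functions none of which is a unit. -/
abbrev tS (n : ℕ) : PSh C L ⥤ PSh C L :=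
  pb L (El.proj (OS u (Fin n))) ⋙ sm .top (unitSub u (Fin n)) L

lemma Pow_exists_hom (n : ℕ) (F : PSh C L) : ∃ f : (tN L u n).obj F ⟶ (tS L u n).obj F,
    ∀ (W : C) (y : Fin n → Γ(u.obj W, ⊤)) (g : F.obj (op W)), (f.app (op W)).hom (tpN F W n y g) =
      smI .top (unitSub u (Fin n)) ((pb L (El.proj (OS u (Fin n)))).obj F) ⟨W, y⟩ g := by
  induction n with
  | zero =>
    refine ⟨Pow_sec (X := OS u (Fin 0)) .top (unitSub u (Fin 0)) (fun _ => Fin.elim0)
      (fun _ => funext fun i => i.elim0) (fun _ => trivial) F, fun W y g => ?_⟩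
    obtain rfl : y = Fin.elim0 := funext fun i => i.elim0
    rfl
  | succ n ih =>
    obtain ⟨f, hf⟩ := ih
    have key : ∀ (W : C) (a : Γ(u.obj W, ⊤)),
        ∃ ψ : ((tN L u n).obj F).obj (op W) →ₗ[L] ((tS L u (n + 1)).obj F).obj (op W),
          ∀ y g, ψ (tpN F W n y g) = smI .top (unitSub u (Fin (n + 1)))
            ((pb L (El.proj (OS u (Fin (n + 1))))).obj F) ⟨W, Fin.snoc y a⟩ g := fun W a => by
      let φ : ∀ y : (OS u (Fin n)).obj W, SP.Sub.top.mem y →
          (((pb L (El.proj (OS u (Fin n)))).obj F).obj (op ⟨W, y⟩) →ₗ[L]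
            ((tS L u (n + 1)).obj F).obj (op W)) := fun y _ => smI .top (unitSub u (Fin (n + 1)))
          ((pb L (El.proj (OS u (Fin (n + 1))))).obj F) ⟨W, Fin.snoc y a⟩
      refine ⟨smLift .top (unitSub u (Fin n)) φ ∘ₗ (f.app (op W)).hom, fun y g =>
        (congrArg (smLift .top (unitSub u (Fin n)) φ) (hf W y g)).trans
          (smLift_I (b := unitSub u (Fin n)) φ trivial g fun h => ?_)⟩
      obtain ⟨i, hi⟩ := h
      refine smI_of_b (a := .top) (b := unitSub u (Fin (n + 1)))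
        (G := (pb L (El.proj (OS u (Fin (n + 1))))).obj F) (p := ⟨W, Fin.snoc y a⟩)
        ⟨i.castSucc, ?_⟩ g
      dsimp only
      rwa [Fin.snoc_castSucc]
    choose ψ hψ using key
    let c : RS.unit.Cone u ((tN L u n).obj F) ((tS L u (n + 1)).obj F) :=
      { ψ := ψ
        nat := fun {V W} k a m => by
          refine LinearMap.congr_fun (Pow_lin_ext
            (f := (((tS L u (n + 1)).obj F).map k.op).hom ∘ₗ ψ W a)
            (f' := ψ V ((u.map k).appTop a) ∘ₗ (((tN L u n).obj F).map k.op).hom)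
            fun y g => ?_) m
          rw [LinearMap.comp_apply, LinearMap.comp_apply, Pow_res_tpN, hψ, hψ]
          exact smObj_map_I ((pb L (El.proj (OS u (Fin (n + 1))))).obj F)
            (p := ⟨V, Fin.snoc (fun i => (u.map k).appTop (y i)) ((u.map k).appTop a)⟩)
            (q := ⟨W, Fin.snoc y a⟩) ⟨k, Fin.comp_snoc (u.map k).appTop y a⟩ trivial g
        zero := fun W a m h => by
          refine LinearMap.congr_fun (Pow_lin_ext (f := ψ W a) (f' := 0) fun y g => ?_) m
          rw [hψ]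
          refine smI_of_b (a := .top) (b := unitSub u (Fin (n + 1)))
            (G := (pb L (El.proj (OS u (Fin (n + 1))))).obj F) (p := ⟨W, Fin.snoc y a⟩)
            ⟨Fin.last n, ?_⟩ g
          dsimp only
          rwa [Fin.snoc_last] }
    refine ⟨c.desc, fun W y g => (c.desc_tp W (y (Fin.last n)) _).trans ((hψ _ _ _ _).trans ?_)⟩
    rw [Fin.snoc_init_self]

/-- The data of the inverse map. -/
def Pow_invCone (n : ℕ) (F : PSh C L) : SmCone .top (unitSub u (Fin n))
    ((pb L (El.proj (OS u (Fin n)))).obj F) ((tN L u n).obj F) where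
  φ p _ := tpN F p.W n p.x
  nat {p q} f _ g := (Pow_res_tpN F f.1 q.x g).trans (congrArg (tpN F p.W n · _) f.2)
  zero p _ g h := h.elim fun i hi => Pow_tpN_unit F p.W p.x i hi g

lemma exists_tNIso (n : ℕ) : ∃ e : tN L u n ≅ tS L u n, ∀ (F : PSh C L) (W : C)
    (y : Fin n → Γ(u.obj W, ⊤)) (g : F.obj (op W)),
    ((e.hom.app F).app (op W)).hom (tpN F W n y g) =
      smI .top (unitSub u (Fin n)) ((pb L (El.proj (OS u (Fin n)))).obj F) ⟨W, y⟩ g := by
  choose f hf using Pow_exists_hom (L := L) (u := u) n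
  refine ⟨NatIso.ofComponents (fun F => ⟨f F, (Pow_invCone n F).desc, ?_, ?_⟩) ?_, hf⟩
  · exact tN_hom_ext fun W y g =>
      (congrArg _ (hf F W y g)).trans ((Pow_invCone n F).desc_I ⟨W, y⟩ trivial g)
  · exact sm_hom_ext fun p g h _ =>
      (congrArg _ ((Pow_invCone n F).desc_I p h g)).trans (hf F p.W p.x g)
  · intro F F' φ
    refine tN_hom_ext fun W y g => ?_
    have h1 := sm_map_I (a := .top) (b := unitSub u (Fin n))
      ((pb L (El.proj (OS u (Fin n)))).map φ) ⟨W, y⟩ g
    exact (congrArg _ (tN_map_tpN φ W y g)).trans ((hf F' W y _).trans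
      (h1.symm.trans (congrArg _ (hf F W y g).symm)))

variable (L u) in
/-- `T^n` is free on the families of functions none of which is a unit. -/
def tNIso (n : ℕ) : tN L u n ≅ tS L u n := (exists_tNIso n).choose

lemma tNIso_tpN {n : ℕ} (F : PSh C L) (W : C) (y : Fin n → Γ(u.obj W, ⊤)) (g : F.obj (op W)) :
    (((tNIso L u n).hom.app F).app (op W)).hom (tpN F W n y g) =
      smI .top (unitSub u (Fin n)) ((pb L (El.proj (OS u (Fin n)))).obj F) ⟨W, y⟩ g :=
  (exists_tNIso n).choose_spec F W y g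

section cyl

variable (L u) in
/-- The cylinder functor `G ↦ G ⊗ L[O]`. -/
abbrev cylF : PSh C L ⥤ PSh C L := pb L (El.proj (OS u Unit)) ⋙ sm .top .bot L

lemma Pow_res_int (n : ℤ) {V W : C} (f : V ⟶ W) :
    (OS u Unit).res f (fun _ => (n : Γ(u.obj W, ⊤))) = fun _ => (n : Γ(u.obj V, ⊤)) :=
  funext fun _ => map_intCast (u.map f).appTop.hom n

lemma exists_cylI (n : ℤ) : ∃ i : 𝟭 (PSh C L) ⟶ cylF L u, ∀ (F : PSh C L) (W : C)
    (g : F.obj (op W)), ((i.app F).app (op W)).hom g =
      smI .top .bot ((pb L (El.proj (OS u Unit))).obj F) ⟨W, fun _ => (n : Γ(u.obj W, ⊤))⟩ g := by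
  exact ⟨Pow_secN L (X := OS u Unit) .top .bot (fun W _ => (n : Γ(u.obj W, ⊤)))
    (Pow_res_int n) fun _ => trivial, fun _ _ _ => rfl⟩

variable (L u) in
/-- The section `g ↦ g ⊗ [n]` of the cylinder. -/
def cylI (n : ℤ) : 𝟭 (PSh C L) ⟶ cylF L u := (exists_cylI n).choose

lemma cylI_apply (n : ℤ) (F : PSh C L) (W : C) (g : F.obj (op W)) :
    (((cylI L u n).app F).app (op W)).hom g =
      smI .top .bot ((pb L (El.proj (OS u Unit))).obj F) ⟨W, fun _ => (n : Γ(u.obj W, ⊤))⟩ g :=
  (exists_cylI n).choose_spec F W g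

variable (u) in
/-- The constant function `n`. -/
def Pow_cst (n : ℤ) : (OS u Unit).Sub :=
  ⟨fun {W} y => y = fun _ => (n : Γ(u.obj W, ⊤)), fun f _ h => h ▸ Pow_res_int n f⟩

lemma Pow_loc (n : ℤ) (K : Ch C L) : Loc (NGen u)
    ((mapC (pb L (El.proj (OS u Unit)) ⋙ sm .top (Pow_cst u n) L)).obj K) := by
  refine loc_sm_of_homotopy .top (Pow_cst u n)
    (fun {W} x r i => (n : Γ(u.obj W, ⊤)) + r * (x i - (n : Γ(u.obj W, ⊤))))
    (fun f x r _ => funext fun i => ?_) (fun _ _ _ => trivial) (fun x r _ h => ?_)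
    (fun x _ => funext fun i => ?_) (fun x _ => funext fun i => ?_) K
  · change (u.map f).appTop.hom (n + r * (x i - n)) = _
    rw [map_add, map_mul, map_sub, map_intCast]
    rfl
  · obtain rfl : x = _ := h
    exact funext fun i => by simp
  · simp
  · simp

lemma Pow_cylI_pr (n : ℤ) (K : Ch C L) :
    (chT (cylI L u n)).app K ≫ (chT (Pow_pr L .top)).app K = 𝟙 _ := by
  ext k : 1
  ext W : 2
  exact ModuleCat.hom_ext (LinearMap.ext fun g =>
    (congrArg _ (cylI_apply n (K.X k) W.unop g)).trans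
      ((Pow_prCone .top (K.X k)).desc_I ⟨W.unop, _⟩ trivial g))

/-- The sections of the cylinder are equivalences and agree in the localisation.
Hint: `cylI 0` is a monomorphism whose cokernel is the sum over the pair `(⊤, {0})`, which is
contracted by multiplication (`smSC_shortExact`, `loc_sm_of_homotopy`); both sections split the
projection `p`, so `p` and `cylI 1` are in `W`. -/
lemma wg_cylI (n : ℤ) (K : Ch C L) : WG (NGen u) ((chT (cylI L u n)).app K) := by
  have hS := smSC_shortExact (a₁ := Pow_cst u n) (b₁ := .bot) (a₂ := .top) (b₂ := .bot)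
    (a₃ := .top) (b₃ := Pow_cst u n) (fun _ _ _ => trivial) (fun _ _ h => h.2)
    (fun _ _ _ => trivial) (fun _ _ h => h.2.elim) (fun _ _ h => h) (fun _ _ h => h.2)
    (fun _ _ _ => Or.inl trivial) (fun _ _ h => Or.inl h.2)
    ((mapC (pb L (El.proj (OS u Unit)))).obj K)
  have h1 := (wg_f_iff hS).2 (Pow_loc n K)
  let j := Pow_secN L (Pow_cst u n) .bot (fun W _ => (n : Γ(u.obj W, ⊤))) (Pow_res_int n)
    fun _ => rfl
  have h2 : ∀ k, IsIso (((chT j).app K).f k) := fun k =>
    Pow_isIso_sec (Pow_cst u n) _ (Pow_res_int n) (fun _ => rfl) (fun _ _ h => h) (K.X k)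
  have h3 : IsIso ((chT j).app K) := HomologicalComplex.Hom.isIso_of_components _
  have h4 := (WG.of_isIso ((chT j).app K)).comp h1
  refine (congrArg (fun f => WG (NGen u) f) ?_).mp h4
  ext k : 1
  ext W : 2
  exact ModuleCat.hom_ext (LinearMap.ext fun g =>
    (smLe_I (a := Pow_cst u n) (b := .bot) (a' := .top) (b' := .bot) (fun _ _ _ => trivial)
      (fun _ _ h => h.2) ((pb L (El.proj (OS u Unit))).obj (K.X k))
      ⟨W.unop, fun _ => (n : Γ(u.obj W.unop, ⊤))⟩ rfl g).trans
      (cylI_apply n (K.X k) W.unop g).symm)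

lemma QM_cylI (n n' : ℤ) (K : Ch C L) : (QM (NGen u)).map ((chT (cylI L u n)).app K) =
    (QM (NGen u)).map ((chT (cylI L u n')).app K) := by
  have h1 : WG (NGen u) ((chT (Pow_pr L (.top : (OS u Unit).Sub))).app K) :=
    (wg_cylI n K).of_precomp (by rw [Pow_cylI_pr]; exact WG.of_isIso _)
  have := h1.isIso
  rw [← cancel_mono ((QM (NGen u)).map ((chT (Pow_pr L (.top : (OS u Unit).Sub))).app K)),
    ← Functor.map_comp, ← Functor.map_comp, Pow_cylI_pr, Pow_cylI_pr]

end cyl

end Pool.Agent.KEW
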