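import Pool.Agent.P.MP_6277db_ag.KEW.L2b.Pow

/-!
KEW, layer L2b: criteria for preserving the local equivalences; categories of elements of sites.
-/

set_option backward.isDefEq.respectTransparency false

noncomputable section

open CategoryTheory Limits AlgebraicGeometry Opposite MonoidalCategory

namespace Pool.Agent.KEW

variable {C : Type 1} [Category.{0} C] {C' : Type 1} [Category.{0} C'] {L : Type 1} [CommRing L]
  {u : C ⥤ Scheme.{0}} {u' : C' ⥤ Scheme.{0}} {X : SP C}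

lemma IsSite.el (hu : IsSite u) (X : SP C) : IsSite (El.proj X ⋙ u) := by
  have := hu.faithful
  have : (El.proj X).Faithful := ⟨fun h => El.hom_ext h⟩
  refine ⟨inferInstance, fun {V A Z} φ ψ h w => ?_, fun U V f h1 h2 h3 => ?_,
    fun U => hu.noeth U.W⟩
  · obtain ⟨k, hk, hk'⟩ := hu.exists_lift φ.1 ψ.1 h w
    exact ⟨⟨k, by rw [← ψ.2, ← X.res_comp, hk', φ.2]⟩, hk⟩
  · obtain ⟨V', f', e, h⟩ := hu.etale U.W V f h1 h2 h3
    exact ⟨⟨V', X.res f' U.x⟩, El.along f' U.x, e, h⟩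

lemma HasCyl.el (hu : HasCyl u) (X : SP C) : HasCyl (El.proj X ⋙ u) := by
  intro p
  obtain ⟨c⟩ := hu p.W
  refine ⟨⟨⟨c.I, X.res c.p p.x⟩, El.along c.p p.x, c.t, fun q => ⟨fun φ φ' h => ?_, ?_⟩⟩⟩
  · refine El.hom_ext ((c.bij q.W).1 (Prod.ext ?_ ?_))
    · exact congrArg Subtype.val (congrArg Prod.fst h)
    · exact (congrArg Prod.snd h :)
  · rintro ⟨ψ, r⟩
    obtain ⟨φ, hφ⟩ := (c.bij q.W).2 (ψ.1, r)
    have h1 : φ ≫ c.p = ψ.1 := congrArg Prod.fst hφ
    refine ⟨⟨φ, ?_⟩, Prod.ext (El.hom_ext h1) (congrArg Prod.snd hφ :)⟩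
    exact (X.res_comp _ _ _).symm.trans (h1 ▸ ψ.2)

/-- An etale neighbourhood given as a scheme is dominated by one in the site (shrink to an affine
open; it is separated and quasi-compact over the noetherian scheme `u W`). -/
lemma IsSite.locally_of_etale (hu : IsSite u) {W : C} {V : Scheme.{0}} (f : V ⟶ u.obj W) [Etale f]
    (y : V) [IsIso (f.residueFieldMap y)] :
    Locally u W (f y) fun V' φ => ∃ k : u.obj V' ⟶ V, k ≫ f = u.map φ := by
  obtain ⟨V', g, ι, y', hι, hg, rfl⟩ := hu.exists_etale W f y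
  refine ⟨V', g, y', ⟨?_, ?_, ?_⟩, ι, hg.symm⟩
  · rw [hg]
    infer_instance
  · rw [hg, Scheme.Hom.comp_apply]
  · rw [hg, Scheme.residueFieldMap_comp]
    infer_instance

lemma IsSite.locally_open (hu : IsSite u) {W : C} {O : Set (u.obj W)} (hO : IsOpen O)
    {w : u.obj W} (hw : w ∈ O) : Locally u W w fun _ φ => Set.range (u.map φ) ⊆ O := by
  obtain ⟨V, f, hf, h⟩ := hu.exists_open W ⟨O, hO⟩
  obtain ⟨y, rfl⟩ : w ∈ Set.range (u.map f) := h ▸ hw
  exact ⟨V, f, y, IsNbhd.of_isOpenImmersion f y, h.le⟩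

/-- A local statement on the category of elements gives a local statement on the base. -/
lemma Locally.of_el {p : El X} {w : u.obj p.W} {P : ∀ q : El X, (q ⟶ p) → Prop}
    (h : Locally (El.proj X ⋙ u) p w P) :
    Locally u p.W w fun V f => P ⟨V, X.res f p.x⟩ (El.along f p.x) := by
  have key : ∀ (V : C) (f : V ⟶ p.W) (x : X.obj V) (hf : X.res f p.x = x),
      P ⟨V, x⟩ ⟨f, hf⟩ → P ⟨V, X.res f p.x⟩ (El.along f p.x) := by
    rintro V f _ rfl h
    exact h
  obtain ⟨q, f, y, h1, h2⟩ := h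
  exact ⟨q.W, f.1, y, h1, key q.W f.1 q.x f.2 h2⟩

lemma Locally.to_el {p : El X} {w : u.obj p.W} {P : ∀ q : El X, (q ⟶ p) → Prop}
    (h : Locally u p.W w fun V f => P ⟨V, X.res f p.x⟩ (El.along f p.x)) :
    Locally (El.proj X ⋙ u) p w P := by
  obtain ⟨V, f, y, h1, h2⟩ := h
  exact ⟨⟨V, X.res f p.x⟩, El.along f p.x, y, h1, h2⟩

/-- An exact functor which preserves locally zero presheaves preserves `NisGen`. -/
lemma NisGen.mapC (F : PSh C' L ⥤ PSh C L) [IsExact F]
    (h : ∀ G, LocZero u' G → LocZero u (F.obj G)) {K : Ch C' L} (hK : NisGen u' K) :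
    NisGen u ((mapC F).obj K) := by
  exact fun q => (h _ (hK q)).of_iso (TW_homologyMapIso F K q).symm

/-- Etale neighbourhoods lift along the labelling functor `lam`, up to `b`. -/
def LiftsNb (u : C ⥤ Scheme.{0}) (u' : C' ⥤ Scheme.{0}) (lam : El X ⥤ C') (a b : X.Sub) : Prop :=
  ∀ (W : C) (x : X.obj W) (w : u.obj W), a.mem x →
    (Locally u W w fun _ f => b.mem (X.res f x)) ∨
      ∃ z : u'.obj (lam.obj ⟨W, x⟩), ∀ (V' : C') (g : V' ⟶ lam.obj ⟨W, x⟩) (y : u'.obj V'),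
        IsNbhd u' g y z → Locally u W w fun V f => b.mem (X.res f x) ∨
          ∃ k : lam.obj ⟨V, X.res f x⟩ ⟶ V', k ≫ g = lam.map (El.along f x)

lemma LiftsNb.locZero {lam : El X ⥤ C'} {a b : X.Sub} (h : LiftsNb u u' lam a b) {G : PSh C' L}
    (hG : LocZero u' G) : LocZero u ((pb L lam ⋙ sm a b L).obj G) := by
  refine sm_locZero (G := (pb L lam).obj G) fun W x g w ha _ => ?_
  rcases h W x w ha with h | ⟨z, hz⟩
  · exact h.mono fun V f hb => smI_of_b (p := ⟨V, X.res f x⟩) hb _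
  · obtain ⟨V', φ, y, h1, h2⟩ := hG.el (U := lam.obj ⟨W, x⟩) g z
    refine (hz V' φ y h1).mono ?_
    rintro V f (hb | ⟨k, hk⟩)
    · exact smI_of_b (p := ⟨V, X.res f x⟩) hb _
    · have h3 : G.map (lam.map (El.along f x)).op g = 0 := by
        rw [← hk, Site_res, h2, map_zero]
      exact (congrArg (smI a b ((pb L lam).obj G) ⟨V, X.res f x⟩) h3).trans (map_zero _)

variable (L) in
/-- Multiplication by a function on the reduced line. -/
def Pres_mul {U : Scheme.{0}} (s : Γ(U, ⊤)) :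
    (funQuot L RS.zero.S RS.zero.maps).obj (op U) →ₗ[L]
      (funQuot L RS.zero.S RS.zero.maps).obj (op U) :=
  Submodule.mapQ _ _ (Finsupp.lmapDomain L L (s * ·))
    ((Finsupp.supported_mono (t := (s * ·) ⁻¹' {0}) fun _ ht => mul_eq_zero_of_right s ht).trans
      (Finsupp.supported_comap_lmapDomain L L _ _))

lemma Pres_mul_el {U : Scheme.{0}} (s t : Γ(U, ⊤)) :
    Pres_mul L s (RS.zero.el L t) = RS.zero.el L (s * t) :=
  congrArg Submodule.Quotient.mk (Finsupp.mapDomain_single (f := (s * ·)) (a := t) (b := (1 : L)))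

/-- The same on `G ⊗ L[O] / L[0]`. -/
def Pres_psi (G : PSh C L) (W : C) (s : Γ(u.obj W, ⊤)) :
    ((RS.zero.T L u).obj G).obj (op W) →ₗ[L] ((RS.zero.T L u).obj G).obj (op W) :=
  LinearMap.lTensor (G.obj (op W)) (Pres_mul L s)

lemma Pres_psi_tp (G : PSh C L) (W : C) (s t : Γ(u.obj W, ⊤)) (g : G.obj (op W)) :
    Pres_psi G W s (RS.zero.tp G W t g) = RS.zero.tp G W (s * t) g :=
  (LinearMap.lTensor_tmul _ (Pres_mul L s) g (RS.zero.el L t)).trans
    (congrArg (TensorProduct.tmul L g) (Pres_mul_el s t))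

variable (u) in
/-- The data of the multiplication. -/
def Pres_cone (G : PSh C L) : RS.zero.Cone u ((RS.zero.T L u).obj G) ((RS.zero.T L u).obj G) where
  ψ := Pres_psi G
  nat {V W} f s m := by
    refine LinearMap.congr_fun (RS.zero.lin_ext
      (f := (((RS.zero.T L u).obj G).map f.op).hom ∘ₗ Pres_psi G W s)
      (f' := Pres_psi G V ((u.map f).appTop s) ∘ₗ (((RS.zero.T L u).obj G).map f.op).hom)
      fun t g => ?_) m
    rw [LinearMap.comp_apply, LinearMap.comp_apply, Pres_psi_tp, RS.map_tp, RS.map_tp,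
      Pres_psi_tp, map_mul]
  zero W s m hs := by
    refine LinearMap.congr_fun (RS.zero.lin_ext (f := Pres_psi G W s) (f' := 0) fun t g => ?_) m
    rw [Pres_psi_tp]
    exact RS.zero.tp_of_mem G W (mul_eq_zero_of_left hs t) g

variable (u) in
lemma Pres_mu : ∃ μ : RS.zero.T L u ⋙ RS.zero.T L u ⟶ RS.zero.T L u,
    ∀ (G : PSh C L) (W : C) (m : ((RS.zero.T L u).obj G).obj (op W)),
      ((μ.app G).app (op W)).hom (RS.zero.tp ((RS.zero.T L u).obj G) W 1 m) = m := by
  refine ⟨⟨fun G => (Pres_cone u G).desc, fun G G' τ => RS.zero.hom_ext fun W s m => ?_⟩,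
    fun G W m => ((Pres_cone u G).desc_tp W 1 m).trans ?_⟩
  · have h1 := RS.zero.T_map_tp ((RS.zero.T L u).map τ) W s m
    have h2 := (Pres_cone u G').desc_tp W s ((((RS.zero.T L u).map τ).app (op W)).hom m)
    have h3 := (Pres_cone u G).desc_tp W s m
    have h4 : Pres_psi G' W s ∘ₗ (((RS.zero.T L u).map τ).app (op W)).hom =
        (((RS.zero.T L u).map τ).app (op W)).hom ∘ₗ Pres_psi G W s :=
      RS.zero.lin_ext fun t g => by
        rw [LinearMap.comp_apply, LinearMap.comp_apply, Pres_psi_tp, RS.T_map_tp, RS.T_map_tp,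
          Pres_psi_tp]
    exact (congrArg _ h1).trans (h2.trans ((LinearMap.congr_fun h4 m).trans (congrArg _ h3.symm)))
  · refine LinearMap.congr_fun (RS.zero.lin_ext (f := Pres_psi G W 1) (f' := LinearMap.id)
      fun t g => ?_) m
    rw [Pres_psi_tp, one_mul, LinearMap.id_apply]

/-- The main criterion. Hint: `PresW.of_gen`; for `K ⊗ line` use `loc_of_contraction` for the
functor `RS.zero.T L u' ⋙ pb L lam ⋙ sm a b L` with
`(ι (g ⊗ [t])) ⊗ [s] ↦ ι (g ⊗ [π^* s * t])`. -/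
theorem presW_sm (lam : El X ⥤ C') (π : lam ⋙ u' ⟶ El.proj X ⋙ u) {a b : X.Sub}
    (h : LiftsNb u u' lam a b) : PresW (NGen u') (NGen u) (mapC (pb L lam ⋙ sm a b L)) := by
  refine PresW.of_gen _ ?_
  rintro K (hK | ⟨K', rfl⟩)
  · exact (NisGen.mapC _ (fun G => h.locZero) hK).loc
  · obtain ⟨μ, hμ⟩ := Pres_mu (L := L) u'
    refine loc_of_contraction (RS.zero.T L u' ⋙ (pb L lam ⋙ sm a b L))
      (Functor.whiskerLeft (RS.zero.T L u') (smθ L RS.zero lam π a b) ≫
        Functor.whiskerRight μ (pb L lam ⋙ sm a b L)) (fun G W m => ?_) K'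
    induction m using sm_induction with
    | zero => exact (congrArg _ (map_zero _)).trans (map_zero _)
    | gen x g _ _ =>
      have h1 := smθ_I RS.zero lam π a b ((RS.zero.T L u').obj G) ⟨W, x⟩ 1 g
      rw [map_one] at h1
      have h2 := sm_map_I (a := a) (b := b) ((pb L lam).map (μ.app G)) ⟨W, x⟩
        (RS.zero.tp ((RS.zero.T L u').obj G) (lam.obj ⟨W, x⟩) 1 g)
      exact (congrArg _ h1).trans (h2.trans (congrArg _ (hμ G (lam.obj ⟨W, x⟩) g)))
    | add m m' h h' =>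
      exact (congrArg _ (map_add _ m m')).trans ((map_add _ _ _).trans (congrArg₂ (· + ·) h h'))

lemma liftsNb_of_iso (hu : IsSite u) (hu' : IsSite u') (lam : El X ⥤ C')
    (π : lam ⋙ u' ⟶ El.proj X ⋙ u) [IsIso π] (a b : X.Sub) : LiftsNb u u' lam a b := by
  obtain ⟨e, he⟩ : ∃ e : ∀ (W : C) (x : X.obj W), u'.obj (lam.obj ⟨W, x⟩) ≅ u.obj W,
      ∀ {V W : C} (f : V ⟶ W) (x : X.obj W), u'.map (lam.map (El.along f x)) ≫ (e W x).hom =
        (e V (X.res f x)).hom ≫ u.map f :=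
    ⟨fun W x => asIso (π.app ⟨W, x⟩), fun f x => π.naturality (El.along f x)⟩
  refine fun W x w _ => Or.inr ⟨(e W x).inv w, fun V' g y ⟨h1, h2, h3⟩ => ?_⟩
  have h4 : IsIso ((u'.map g ≫ (e W x).hom).residueFieldMap y) := by
    rw [Scheme.residueFieldMap_comp]
    infer_instance
  have h5 : (u'.map g ≫ (e W x).hom) y = w := by
    rw [Scheme.Hom.comp_apply, h2, ← Scheme.Hom.comp_apply, Iso.inv_hom_id]
    rfl
  have h6 := hu.locally_of_etale (u'.map g ≫ (e W x).hom) y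
  rw [h5] at h6
  refine h6.mono ?_
  rintro V f ⟨k, hk⟩
  obtain ⟨k', -, hk'⟩ := hu'.exists_lift (lam.map (El.along f x)) g
    ((e V (X.res f x)).hom ≫ k) (by
      rw [← cancel_mono (e W x).hom, Category.assoc, Category.assoc, hk, he])
  exact Or.inr ⟨k', hk'⟩

theorem presW_sm_of_iso (hu : IsSite u) (hu' : IsSite u') (lam : El X ⥤ C')
    (π : lam ⋙ u' ⟶ El.proj X ⋙ u) [IsIso π] (a b : X.Sub) :
    PresW (NGen u') (NGen u) (mapC (pb L lam ⋙ sm a b L)) :=
  presW_sm lam π (liftsNb_of_iso hu hu' lam π a b)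

/-- The sum functor itself. -/
theorem presW_sm_id (a b : X.Sub) :
    PresW (NGen (El.proj X ⋙ u)) (NGen u) (mapC (sm a b L)) := by
  refine presW_sm (u' := El.proj X ⋙ u) (𝟭 _) (𝟙 _) fun W x w _ => Or.inr ⟨w, fun V' g y hg =>
    ⟨V'.W, g.1, y, hg, Or.inr ⟨⟨𝟙 _, (X.res_id _ _).trans g.2.symm⟩, ?_⟩⟩⟩
  exact El.hom_ext (Category.id_comp _)

/-- Tensoring with the free presheaf on a pair (no hypothesis on the site). -/
theorem presW_sm_proj (a b : X.Sub) :
    PresW (NGen u) (NGen u) (mapC (pb L (El.proj X) ⋙ sm a b L)) := by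
  exact presW_sm (El.proj X) (𝟙 _) fun W x w _ => Or.inr ⟨w, fun V' g y hg =>
    ⟨V', g, y, hg, Or.inr ⟨𝟙 _, Category.id_comp _⟩⟩⟩

/-- Restriction along a functor of sites over schemes. -/
theorem presW_pb (φ : C ⥤ C') (hu : IsSite (φ ⋙ u')) (hu' : IsSite u') :
    PresW (NGen u') (NGen (φ ⋙ u')) (mapC (pb L φ)) := by
  refine PresW.of_gen _ ?_
  rintro K (hK | ⟨K', rfl⟩)
  · refine (NisGen.mapC _ (fun G hG => (locZero_iff _).2 fun W a x => ?_) hK).loc
    obtain ⟨V', g, y, ⟨h1, rfl, h3⟩, h4⟩ := hG.el (U := φ.obj W) a x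
    refine (hu.locally_of_etale (W := W) (u'.map g) y).mono ?_
    rintro V f ⟨k, hk⟩
    obtain ⟨k', -, hk'⟩ := hu'.exists_lift (φ.map f) g k hk
    change G.map (φ.map f).op a = 0
    rw [← hk', Site_res, h4, map_zero]
  · exact Loc.gen _ (Or.inr ⟨(mapC (pb L φ)).obj K', rfl⟩)

variable (L) in
/-- A natural transformation of functors of sites gives a map of restriction functors. -/
def pbT {φ φ' : C ⥤ C'} (τ : φ ⟶ φ') : pb L φ' ⟶ pb L φ :=
  (Functor.whiskeringLeft _ _ _).map (NatTrans.op τ)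

lemma pbT_app {φ φ' : C ⥤ C'} (τ : φ ⟶ φ') (G : PSh C' L) (W : C) :
    ((pbT L τ).app G).app (op W) = G.map (τ.app W).op := rfl

/-- The representable presheaf of sets. -/
def SP.yon (φ : C ⥤ C') (U : C') : SP C where
  obj W := φ.obj W ⟶ U
  res f x := φ.map f ≫ x
  res_id W x := by simp
  res_comp f g x := by simp

/-- The one point presheaf. -/
def SP.pt (C : Type 1) [Category.{0} C] : SP C where
  obj _ := Unit
  res _ _ := ()
  res_id _ _ := rfl
  res_comp _ _ _ := rfl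

/-- The subterminal presheaf attached to a sieve. -/
def SP.sieve (P : C → Prop) (h : ∀ {V W : C}, (V ⟶ W) → P W → P V) : SP C where
  obj W := PLift (P W)
  res f x := ⟨h f x.down⟩
  res_id _ _ := rfl
  res_comp _ _ _ := rfl

end Pool.Agent.KEW
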