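import Pool.Agent.P.MP_6277db_ag.KEW.L2b.Pres

/-!
KEW, layer L2b: maps of sums induced by maps of labelled presheaves of sets.
-/

set_option backward.isDefEq.respectTransparency false

noncomputable section

open CategoryTheory Limits AlgebraicGeometry Opposite

namespace Pool.Agent.KEW

variable {C : Type 1} [Category.{0} C] {C' : Type 1} [Category.{0} C'] {L : Type 1} [CommRing L]
  {X X' : SP C} {lam : El X ⥤ C'} {lam' : El X' ⥤ C'} (t : X.Hom X') (μ : t.el ⋙ lam' ⟶ lam)
  {a b : X.Sub} {a' b' : X'.Sub}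
  (ha : ∀ ⦃W : C⦄ (x : X.obj W), a.mem x → a'.mem (t.app x))
  (hb : ∀ ⦃W : C⦄ (x : X.obj W), a.mem x → b.mem x → b'.mem (t.app x))

/-- The data of the map of sums. -/
def smPushCone (G : PSh C' L) : SmCone a b ((pb L lam).obj G) (smObj a' b' ((pb L lam').obj G)) where
  φ p _ := smI a' b' ((pb L lam').obj G) (t.el.obj p) ∘ₗ (G.map (μ.app p).op).hom
  nat {p q} f h g := by
    refine (smObj_map_I ((pb L lam').obj G) (t.el.map f) (ha _ h) _).trans ?_
    have := congrArg (fun k => (G.map k.op).hom g) (μ.naturality f)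
    simp only [op_comp, G.map_comp, ModuleCat.hom_comp, LinearMap.comp_apply] at this
    exact congrArg (smI a' b' ((pb L lam').obj G) (t.el.obj p)) this
  zero p h g h' := smI_of_b (p := t.el.obj p) (hb p.x h h') _

variable (L) in
/-- The map of sums `ι x g ↦ ι (t x) (μ^* g)`. -/
def smPush : pb L lam ⋙ sm a b L ⟶ pb L lam' ⋙ sm a' b' L where
  app G := (smPushCone t μ ha hb G).desc
  naturality {G G'} τ := sm_hom_ext fun p g h _ => by
    have h1 := sm_map_I (a := a) (b := b) ((pb L lam).map τ) p g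
    have h2 := (smPushCone t μ ha hb G').desc_I p h ((τ.app (op (lam.obj p))).hom g)
    have h3 := (smPushCone t μ ha hb G).desc_I p h g
    have h4 := sm_map_I (a := a') (b := b') ((pb L lam').map τ) (t.el.obj p)
      ((G.map (μ.app p).op).hom g)
    have h5 := congrArg (fun k => k.hom g) (τ.naturality (μ.app p).op)
    refine (congrArg _ h1).trans (h2.trans (Eq.trans ?_ (h4.symm.trans (congrArg _ h3.symm))))
    exact congrArg (smI a' b' ((pb L lam').obj G') (t.el.obj p)) h5.symm

lemma smPush_I (G : PSh C' L) (p : El X) (h : a.mem p.x) (g : G.obj (op (lam.obj p))) :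
    (((smPush L t μ ha hb).app G).app (op p.W)).hom (smI a b ((pb L lam).obj G) p g) =
      smI a' b' ((pb L lam').obj G) (t.el.obj p) ((G.map (μ.app p).op).hom g) :=
  (smPushCone t μ ha hb G).desc_I p h g

variable {u : C ⥤ Scheme.{0}}

lemma Push_inv [IsIso μ] (G : PSh C' L) (p : El X) :
    Function.Bijective (G.map (μ.app p).op).hom :=
  ConcreteCategory.bijective_of_isIso (G.map (μ.app p).op)

lemma Push_gen [IsIso μ] (G : PSh C' L) {V : C} {x : X.obj V} (hx : a.mem x) {y : X'.obj V}
    (e : t.app x = y) (g : ((pb L lam').obj G).obj (op ⟨V, y⟩)) :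
    ∃ m : ((pb L lam ⋙ sm a b L).obj G).obj (op V),
      (((smPush L t μ ha hb).app G).app (op V)).hom m = smI a' b' ((pb L lam').obj G) ⟨V, y⟩ g := by
  subst e
  obtain ⟨g', hg'⟩ := (Push_inv t μ G ⟨V, x⟩).2 g
  exact ⟨smI a b ((pb L lam).obj G) ⟨V, x⟩ g', (smPush_I t μ ha hb G ⟨V, x⟩ hx g').trans
    (congrArg (smI a' b' ((pb L lam').obj G) (t.el.obj ⟨V, x⟩)) hg')⟩

/-- A locally bijective map of pairs with invertible labels is a local equivalence. -/
lemma wg_smPush [IsIso μ]
    (h₁ : ∀ (W : C) (x : X.obj W) (w : u.obj W), a.mem x → b'.mem (t.app x) →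
      Locally u W w fun _ f => b.mem (X.res f x))
    (h₂ : ∀ (W : C) (x x' : X.obj W) (w : u.obj W), a.mem x → a.mem x' → t.app x = t.app x' →
      Locally u W w fun _ f => X.res f x = X.res f x' ∨ (b.mem (X.res f x) ∧ b.mem (X.res f x')))
    (h₃ : ∀ (W : C) (x' : X'.obj W) (w : u.obj W), a'.mem x' →
      Locally u W w fun V f => b'.mem (X'.res f x') ∨
        ∃ x : X.obj V, a.mem x ∧ t.app x = X'.res f x') (K : Ch C' L) :
    WG (NisGen u) ((chT (smPush L t μ ha hb)).app K) := by
  refine wg_nis_of_terms _ (fun n => ?_) fun n => ?_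
  · refine sm_locInj (G := (pb L lam).obj (K.X n)) (G' := (pb L lam').obj (K.X n))
      ((smPush L t μ ha hb).app (K.X n)) t ((pbT L μ).app (K.X n))
      (fun p g h => smPush_I t μ ha hb (K.X n) p h g) (fun W x g w hx h0 => ?_) h₂
    rcases (smI_eq_zero_iff _ _).1 h0 with h | h | h
    · exact absurd (ha x hx) h
    · exact (h₁ W x w hx h).mono fun V f hf => smI_of_b (p := ⟨V, X.res f x⟩) hf _
    · obtain rfl : g = 0 := (Push_inv t μ (K.X n) ⟨W, x⟩).1 (h.trans (map_zero _).symm)
      exact Locally.of_forall _ (by rw [map_zero, map_zero])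
  · refine sm_locSurj (G := (pb L lam').obj (K.X n)) ((smPush L t μ ha hb).app (K.X n))
      fun W x' g w hx _ => (h₃ W x' w hx).mono fun V f hf => ?_
    rcases hf with h | ⟨x, h, e⟩
    · exact ⟨0, (map_zero _).trans (smI_of_b (p := ⟨V, X'.res f x'⟩) h _).symm⟩
    · exact Push_gen t μ ha hb (K.X n) h e _

/-- The subpresheaf of the one point presheaf attached to a sieve. -/
def SP.ptSub (P : C → Prop) (h : ∀ {V W : C}, (V ⟶ W) → P W → P V) : (SP.pt C).Sub :=
  ⟨fun {W} _ => P W, fun f _ hW => h f hW⟩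

end Pool.Agent.KEW
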