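import Pool.Agent.P.MP_6277db_ag.KEW.L2b.Push

/-!
KEW, layer L2b: a sum of sums is a sum.
-/

set_option backward.isDefEq.respectTransparency false

noncomputable section

open CategoryTheory Limits AlgebraicGeometry Opposite

namespace Pool.Agent.KEW

variable {C : Type 1} [Category.{0} C] {C' : Type 1} [Category.{0} C'] {L : Type 1} [CommRing L]
  {X : SP C} (lam : El X ⥤ C') (Y : SP C')

lemma SP.sigma_aux {V W : C} (f : V ⟶ W) {x : X.obj W} {x' : X.obj V} (h : X.res f x = x')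
    (y : Y.obj (lam.obj ⟨W, x⟩)) :
    (⟨X.res f x, Y.res (lam.map (El.along f x)) y⟩ : Σ x : X.obj V, Y.obj (lam.obj ⟨V, x⟩)) =
      ⟨x', Y.res (lam.map (X := ⟨V, x'⟩) (Y := ⟨W, x⟩) ⟨f, h⟩) y⟩ := by
  subst h
  rfl

/-- Pairs of an element of `X` and an element of `Y` over its label. -/
def SP.sigma : SP C where
  obj W := Σ x : X.obj W, Y.obj (lam.obj ⟨W, x⟩)
  res f p := ⟨X.res f p.1, Y.res (lam.map (El.along f p.1)) p.2⟩
  res_id W p := by
    rw [SP.sigma_aux lam Y (𝟙 W) (X.res_id W p.1)]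
    exact congrArg (Sigma.mk p.1)
      ((congrArg (fun k => Y.res k p.2) (lam.map_id ⟨W, p.1⟩)).trans (Y.res_id _ _))
  res_comp f g p := by
    rw [SP.sigma_aux lam Y (f ≫ g) (X.res_comp f g p.1)]
    exact congrArg (Sigma.mk _)
      ((congrArg (fun k => Y.res k p.2)
        (lam.map_comp (El.along f (X.res g p.1)) (El.along g p.1))).trans (Y.res_comp _ _ _))

/-- The first projection. -/
def SP.sigFst : (SP.sigma lam Y).Hom X := ⟨fun p => p.1, fun _ _ => rfl⟩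

/-- The second projection, on elements. -/
def SP.sigEl : El (SP.sigma lam Y) ⥤ El Y where
  obj p := ⟨lam.obj ⟨p.W, p.x.1⟩, p.x.2⟩
  map {p q} f := ⟨lam.map ((SP.sigFst lam Y).el.map f), eq_of_heq (Sigma.ext_iff.1
    ((SP.sigma_aux lam Y f.1 (congrArg Sigma.fst f.2) q.x.2).symm.trans f.2)).2⟩
  map_id p := El.hom_ext (lam.map_id ⟨p.W, p.x.1⟩)
  map_comp f g := El.hom_ext
    (lam.map_comp ((SP.sigFst lam Y).el.map f) ((SP.sigFst lam Y).el.map g))

variable {Y}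

/-- Both components lie in the given subpresheaves. -/
def SP.sigAnd (a : X.Sub) (a' : Y.Sub) : (SP.sigma lam Y).Sub :=
  ⟨fun p => a.mem p.1 ∧ a'.mem p.2, fun f _ h => ⟨a.res f h.1, a'.res _ h.2⟩⟩

/-- One of the components lies in the given subpresheaf. -/
def SP.sigOr (b : X.Sub) (b' : Y.Sub) : (SP.sigma lam Y).Sub :=
  ⟨fun p => b.mem p.1 ∨ b'.mem p.2, fun f _ h => h.imp (b.res f) (b'.res _)⟩

/-- The generators of the sum over pairs. -/
def Sigma_gen (a b : X.Sub) (a' b' : Y.Sub) (G : PSh (El Y) L) (p : El X) (y : Y.obj (lam.obj p)) :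
    G.obj (op ⟨lam.obj p, y⟩) →ₗ[L]
      SmMod (SP.sigAnd lam a a') (SP.sigOr lam b b') ((pb L (SP.sigEl lam Y)).obj G) p.W :=
  smI (SP.sigAnd lam a a') (SP.sigOr lam b b') ((pb L (SP.sigEl lam Y)).obj G) ⟨p.W, ⟨p.x, y⟩⟩

/-- The inner map on sections. -/
def Sigma_in (a b : X.Sub) (a' b' : Y.Sub) (G : PSh (El Y) L) (p : El X) :
    SmMod a' b' G (lam.obj p) →ₗ[L]
      SmMod (SP.sigAnd lam a a') (SP.sigOr lam b b') ((pb L (SP.sigEl lam Y)).obj G) p.W :=
  smLift a' b' fun y _ => Sigma_gen lam a b a' b' G p y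

lemma Sigma_in_I (a b : X.Sub) (a' b' : Y.Sub) (G : PSh (El Y) L) (p : El X)
    (y : Y.obj (lam.obj p)) (g : G.obj (op ⟨lam.obj p, y⟩)) :
    Sigma_in lam a b a' b' G p (smI a' b' G ⟨lam.obj p, y⟩ g) =
      smI (SP.sigAnd lam a a') (SP.sigOr lam b b') ((pb L (SP.sigEl lam Y)).obj G)
        ⟨p.W, ⟨p.x, y⟩⟩ g := by
  by_cases ha : a'.mem y
  · have h := smLift_I (b := b') (fun y (_ : a'.mem y) => Sigma_gen lam a b a' b' G p y) ha g
      fun hb => smI_of_b (a := SP.sigAnd lam a a') (b := SP.sigOr lam b b')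
        (G := (pb L (SP.sigEl lam Y)).obj G) (p := ⟨p.W, ⟨p.x, y⟩⟩) (Or.inr hb) g
    exact h
  · have h1 := smI_of_not_a (a := a') (b := b') (G := G) (p := ⟨lam.obj p, y⟩) ha g
    have h2 := smI_of_not_a (a := SP.sigAnd lam a a') (b := SP.sigOr lam b b')
      (G := (pb L (SP.sigEl lam Y)).obj G) (p := ⟨p.W, ⟨p.x, y⟩⟩) (fun h => ha h.2) g
    exact (congrArg (Sigma_in lam a b a' b' G p) h1).trans ((map_zero _).trans h2.symm)

/-- The data of the map from the sum of sums to the sum over pairs. -/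
def Sigma_fwd (a b : X.Sub) (a' b' : Y.Sub) (G : PSh (El Y) L) :
    SmCone a b ((pb L lam).obj (smObj a' b' G))
      (smObj (SP.sigAnd lam a a') (SP.sigOr lam b b') ((pb L (SP.sigEl lam Y)).obj G)) where
  φ p _ := Sigma_in lam a b a' b' G p
  nat {p q} f ha m := by
    have key : (smRes (SP.sigAnd lam a a') (SP.sigOr lam b b') ((pb L (SP.sigEl lam Y)).obj G)
        f.1) ∘ₗ Sigma_in lam a b a' b' G q =
        Sigma_in lam a b a' b' G p ∘ₗ smRes a' b' G (lam.map f) := by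
      refine sm_lin_ext fun y g hy _ => ?_
      have h1 := Sigma_in_I lam a b a' b' G q y g
      have h2 := smRes_I (a := SP.sigAnd lam a a') (b := SP.sigOr lam b b')
        ((pb L (SP.sigEl lam Y)).obj G) (p := ⟨p.W, ⟨p.x, Y.res (lam.map f) y⟩⟩)
        (q := ⟨q.W, ⟨q.x, y⟩⟩) ⟨f.1, SP.sigma_aux lam Y f.1 f.2 y⟩ ⟨ha, hy⟩ g
      have h3 := smRes_I (b := b') G (El.along (lam.map f) y) hy g
      have h4 := Sigma_in_I lam a b a' b' G p (Y.res (lam.map f) y)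
        ((G.map (El.along (lam.map f) y).op).hom g)
      exact (congrArg _ h1).trans (h2.trans (h4.symm.trans (congrArg _ h3.symm)))
    exact LinearMap.congr_fun key m
  zero p _ m hb := by
    have key : Sigma_in lam a b a' b' G p = 0 := sm_lin_ext fun y g _ _ =>
      (Sigma_in_I lam a b a' b' G p y g).trans
        (smI_of_b (a := SP.sigAnd lam a a') (b := SP.sigOr lam b b')
          (G := (pb L (SP.sigEl lam Y)).obj G) (p := ⟨p.W, ⟨p.x, y⟩⟩) (Or.inl hb) g)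
    exact LinearMap.congr_fun key m

lemma Sigma_fwd_I (a b : X.Sub) (a' b' : Y.Sub) (G : PSh (El Y) L) (p : El X)
    (y : Y.obj (lam.obj p)) (g : G.obj (op ⟨lam.obj p, y⟩)) :
    ((Sigma_fwd lam a b a' b' G).desc.app (op p.W)).hom
      (smI a b ((pb L lam).obj (smObj a' b' G)) p (smI a' b' G ⟨lam.obj p, y⟩ g)) =
      smI (SP.sigAnd lam a a') (SP.sigOr lam b b') ((pb L (SP.sigEl lam Y)).obj G)
        ⟨p.W, ⟨p.x, y⟩⟩ g := by
  by_cases ha : a.mem p.x
  · exact ((Sigma_fwd lam a b a' b' G).desc_I p ha _).trans (Sigma_in_I lam a b a' b' G p y g)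
  · have h1 := smI_of_not_a (a := a) (b := b) (G := (pb L lam).obj (smObj a' b' G)) (p := p) ha
      (smI a' b' G ⟨lam.obj p, y⟩ g)
    have h2 := smI_of_not_a (a := SP.sigAnd lam a a') (b := SP.sigOr lam b b')
      (G := (pb L (SP.sigEl lam Y)).obj G) (p := ⟨p.W, ⟨p.x, y⟩⟩) (fun h => ha h.1) g
    exact (congrArg ((Sigma_fwd lam a b a' b' G).desc.app (op p.W)).hom h1).trans
      ((map_zero _).trans h2.symm)

/-- The data of the map from the sum over pairs to the sum of sums. -/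
def Sigma_bwd (a b : X.Sub) (a' b' : Y.Sub) (G : PSh (El Y) L) :
    SmCone (SP.sigAnd lam a a') (SP.sigOr lam b b') ((pb L (SP.sigEl lam Y)).obj G)
      (smObj a b ((pb L lam).obj (smObj a' b' G))) where
  φ p _ := smI a b ((pb L lam).obj (smObj a' b' G)) ((SP.sigFst lam Y).el.obj p) ∘ₗ
    smI a' b' G ((SP.sigEl lam Y).obj p)
  nat {p q} f ha g := by
    have h1 := smObj_map_I (b := b) ((pb L lam).obj (smObj a' b' G))
      ((SP.sigFst lam Y).el.map f) ha.1 (smI a' b' G ((SP.sigEl lam Y).obj q) g)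
    have h2 := smObj_map_I (b := b') G ((SP.sigEl lam Y).map f) ha.2 g
    exact h1.trans (congrArg
      (smI a b ((pb L lam).obj (smObj a' b' G)) ((SP.sigFst lam Y).el.obj p)) h2)
  zero p _ g hb := by
    rcases hb with hb | hb
    · exact smI_of_b (a := a) (G := (pb L lam).obj (smObj a' b' G))
        (p := (SP.sigFst lam Y).el.obj p) hb _
    · exact (congrArg (smI a b ((pb L lam).obj (smObj a' b' G)) ((SP.sigFst lam Y).el.obj p))
        (smI_of_b (a := a') (G := G) (p := (SP.sigEl lam Y).obj p) hb g)).trans (map_zero _)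

lemma Sigma_ext {a b : X.Sub} {a' b' : Y.Sub} {G : PSh (El Y) L} {M : PSh C L}
    {f f' : smObj a b ((pb L lam).obj (smObj a' b' G)) ⟶ M}
    (h : ∀ (p : El X) (y : Y.obj (lam.obj p)) (g : G.obj (op ⟨lam.obj p, y⟩)),
      a.mem p.x → ¬ b.mem p.x → a'.mem y → ¬ b'.mem y →
      (f.app (op p.W)).hom (smI a b ((pb L lam).obj (smObj a' b' G)) p
        (smI a' b' G ⟨lam.obj p, y⟩ g)) =
      (f'.app (op p.W)).hom (smI a b ((pb L lam).obj (smObj a' b' G)) p
        (smI a' b' G ⟨lam.obj p, y⟩ g))) : f = f' := by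
  refine sm_hom_ext fun p m ha hb => ?_
  have key : (f.app (op p.W)).hom ∘ₗ smI a b ((pb L lam).obj (smObj a' b' G)) p =
      (f'.app (op p.W)).hom ∘ₗ smI a b ((pb L lam).obj (smObj a' b' G)) p :=
    sm_lin_ext (a := a') (b := b') (G := G) (W := lam.obj p) fun y g ha' hb' =>
      h p y g ha hb ha' hb'
  exact LinearMap.congr_fun key m

/-- The isomorphism for fixed coefficients. -/
def Sigma_iso (a b : X.Sub) (a' b' : Y.Sub) (G : PSh (El Y) L) :
    smObj a b ((pb L lam).obj (smObj a' b' G)) ≅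
      smObj (SP.sigAnd lam a a') (SP.sigOr lam b b') ((pb L (SP.sigEl lam Y)).obj G) where
  hom := (Sigma_fwd lam a b a' b' G).desc
  inv := (Sigma_bwd lam a b a' b' G).desc
  hom_inv_id := Sigma_ext lam fun p y g ha _ ha' _ =>
    (congrArg ((Sigma_bwd lam a b a' b' G).desc.app (op p.W)).hom
      (Sigma_fwd_I lam a b a' b' G p y g)).trans
      ((Sigma_bwd lam a b a' b' G).desc_I ⟨p.W, ⟨p.x, y⟩⟩ ⟨ha, ha'⟩ g)
  inv_hom_id := sm_hom_ext fun p g ha _ =>
    (congrArg ((Sigma_fwd lam a b a' b' G).desc.app (op p.W)).hom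
      ((Sigma_bwd lam a b a' b' G).desc_I p ha g)).trans
      (Sigma_fwd_I lam a b a' b' G ⟨p.W, p.x.1⟩ p.x.2 g)

lemma exists_smSigma (a b : X.Sub) (a' b' : Y.Sub) :
    ∃ e : sm a' b' L ⋙ pb L lam ⋙ sm a b L ≅
        pb L (SP.sigEl lam Y) ⋙ sm (SP.sigAnd lam a a') (SP.sigOr lam b b') L,
      ∀ (G : PSh (El Y) L) (W : C) (x : X.obj W) (y : Y.obj (lam.obj ⟨W, x⟩))
        (g : G.obj (op ⟨lam.obj ⟨W, x⟩, y⟩)),
        ((e.hom.app G).app (op W)).hom (smI a b ((pb L lam).obj ((sm a' b' L).obj G)) ⟨W, x⟩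
          (smI a' b' G ⟨lam.obj ⟨W, x⟩, y⟩ g)) =
        smI (SP.sigAnd lam a a') (SP.sigOr lam b b') ((pb L (SP.sigEl lam Y)).obj G)
          ⟨W, ⟨x, y⟩⟩ g := by
  refine ⟨NatIso.ofComponents (fun G => Sigma_iso lam a b a' b' G) fun {G G'} τ => ?_,
    fun G W x y g => Sigma_fwd_I lam a b a' b' G ⟨W, x⟩ y g⟩
  refine Sigma_ext lam fun p y g _ _ _ _ => ?_
  have h1 := sm_map_I (a := a) (b := b) ((pb L lam).map ((sm a' b' L).map τ)) p
    (smI a' b' G ⟨lam.obj p, y⟩ g)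
  have h2 := sm_map_I (a := a') (b := b') τ ⟨lam.obj p, y⟩ g
  have h3 := Sigma_fwd_I lam a b a' b' G' p y ((τ.app (op ⟨lam.obj p, y⟩)).hom g)
  have h4 := Sigma_fwd_I lam a b a' b' G p y g
  have h5 := sm_map_I (a := SP.sigAnd lam a a') (b := SP.sigOr lam b b')
    ((pb L (SP.sigEl lam Y)).map τ) ⟨p.W, ⟨p.x, y⟩⟩ g
  exact (congrArg ((Sigma_fwd lam a b a' b' G').desc.app (op p.W)).hom
    (h1.trans (congrArg (smI a b ((pb L lam).obj (smObj a' b' G')) p) h2))).trans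
    (h3.trans (h5.symm.trans (congrArg _ h4.symm)))

variable (L) in
/-- A sum of sums is a sum over pairs. -/
def smSigma (a b : X.Sub) (a' b' : Y.Sub) : sm a' b' L ⋙ pb L lam ⋙ sm a b L ≅
    pb L (SP.sigEl lam Y) ⋙ sm (SP.sigAnd lam a a') (SP.sigOr lam b b') L :=
  (exists_smSigma lam a b a' b').choose

lemma smSigma_I (a b : X.Sub) (a' b' : Y.Sub) (G : PSh (El Y) L) (W : C) (x : X.obj W)
    (y : Y.obj (lam.obj ⟨W, x⟩)) (g : G.obj (op ⟨lam.obj ⟨W, x⟩, y⟩)) :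
    (((smSigma L lam a b a' b').hom.app G).app (op W)).hom
      (smI a b ((pb L lam).obj ((sm a' b' L).obj G)) ⟨W, x⟩ (smI a' b' G ⟨lam.obj ⟨W, x⟩, y⟩ g)) =
    smI (SP.sigAnd lam a a') (SP.sigOr lam b b') ((pb L (SP.sigEl lam Y)).obj G) ⟨W, ⟨x, y⟩⟩ g :=
  (exists_smSigma lam a b a' b').choose_spec G W x y g

lemma smSigma_inv_I (a b : X.Sub) (a' b' : Y.Sub) (G : PSh (El Y) L) (W : C) (x : X.obj W)
    (y : Y.obj (lam.obj ⟨W, x⟩)) (g : G.obj (op ⟨lam.obj ⟨W, x⟩, y⟩)) :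
    (((smSigma L lam a b a' b').inv.app G).app (op W)).hom
      (smI (SP.sigAnd lam a a') (SP.sigOr lam b b') ((pb L (SP.sigEl lam Y)).obj G)
        ⟨W, ⟨x, y⟩⟩ g) =
    smI a b ((pb L lam).obj ((sm a' b' L).obj G)) ⟨W, x⟩ (smI a' b' G ⟨lam.obj ⟨W, x⟩, y⟩ g) := by
  have h1 := smSigma_I lam a b a' b' G W x y g
  have h2 := congrArg (fun k => (k.app (op W)).hom
    (smI a b ((pb L lam).obj ((sm a' b' L).obj G)) ⟨W, x⟩ (smI a' b' G ⟨lam.obj ⟨W, x⟩, y⟩ g)))
    ((smSigma L lam a b a' b').hom_inv_id_app G)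
  exact (congrArg (((smSigma L lam a b a' b').inv.app G).app (op W)).hom h1.symm).trans h2

/-- Maps out of a sum of sums are determined on the generators. -/
lemma sm_sm_hom_ext {a b : X.Sub} {a' b' : Y.Sub} {G : PSh (El Y) L} {M : PSh C L}
    {f f' : (sm a b L).obj ((pb L lam).obj ((sm a' b' L).obj G)) ⟶ M}
    (h : ∀ (W : C) (x : X.obj W) (y : Y.obj (lam.obj ⟨W, x⟩)) (g : G.obj (op ⟨lam.obj ⟨W, x⟩, y⟩)),
      a.mem x → ¬ b.mem x → a'.mem y → ¬ b'.mem y →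
      (f.app (op W)).hom (smI a b ((pb L lam).obj ((sm a' b' L).obj G)) ⟨W, x⟩
        (smI a' b' G ⟨lam.obj ⟨W, x⟩, y⟩ g)) =
      (f'.app (op W)).hom (smI a b ((pb L lam).obj ((sm a' b' L).obj G)) ⟨W, x⟩
        (smI a' b' G ⟨lam.obj ⟨W, x⟩, y⟩ g))) : f = f' := by
  exact Sigma_ext lam fun p y g => h p.W p.x y g

section pull

variable (φ : C ⥤ C') (Y)

/-- The restriction of a presheaf of sets along a functor. -/
def SP.pull : SP C where
  obj W := Y.obj (φ.obj W)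
  res f y := Y.res (φ.map f) y
  res_id W y := by rw [φ.map_id, Y.res_id]
  res_comp f g y := by rw [φ.map_comp, Y.res_comp]

/-- The functor on elements. -/
def SP.pullEl : El (SP.pull Y φ) ⥤ El Y where
  obj p := ⟨φ.obj p.W, p.x⟩
  map f := ⟨φ.map f.1, f.2⟩

variable {Y}

/-- The restriction of a subpresheaf. -/
def SP.pullSub (a : Y.Sub) : (SP.pull Y φ).Sub := ⟨fun y => a.mem y, fun f _ h => a.res (φ.map f) h⟩

lemma exists_smPull (a b : Y.Sub) :
    ∃ e : sm a b L ⋙ pb L φ ≅ pb L (SP.pullEl Y φ) ⋙ sm (SP.pullSub φ a) (SP.pullSub φ b) L,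
      ∀ (G : PSh (El Y) L) (W : C) (y : Y.obj (φ.obj W)) (g : G.obj (op ⟨φ.obj W, y⟩)),
        ((e.hom.app G).app (op W)).hom (smI a b G ⟨φ.obj W, y⟩ g) =
        smI (SP.pullSub φ a) (SP.pullSub φ b) ((pb L (SP.pullEl Y φ)).obj G) ⟨W, y⟩ g := by
  refine ⟨NatIso.ofComponents (fun G => NatIso.ofComponents (fun W => Iso.refl _)
    fun {W V} f => ?_) fun {G G'} τ => ?_, fun G W y g => rfl⟩
  · rfl
  · rfl

/-- Maps out of the restriction of a sum are determined on the generators. -/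
lemma pb_sm_hom_ext {a b : Y.Sub} {G : PSh (El Y) L} {M : PSh C L}
    {f f' : (pb L φ).obj ((sm a b L).obj G) ⟶ M}
    (h : ∀ (W : C) (y : Y.obj (φ.obj W)) (g : G.obj (op ⟨φ.obj W, y⟩)), a.mem y → ¬ b.mem y →
      (f.app (op W)).hom (smI a b G ⟨φ.obj W, y⟩ g) =
      (f'.app (op W)).hom (smI a b G ⟨φ.obj W, y⟩ g)) : f = f' := by
  ext W : 2
  exact ModuleCat.hom_ext (sm_lin_ext (a := a) (b := b) (G := G) (W := φ.obj W.unop)
    fun y g ha hb => h W.unop y g ha hb)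

end pull

end Pool.Agent.KEW
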