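import Pool.Agent.P.MP_6277db_ag.KEW.L2b.Pres
import Pool.Agent.P.MP_6277db_ag.KEW.Sites

/-!
KEW, layer L2b: the sites over a noetherian ring.
-/

set_option backward.isDefEq.respectTransparency false

noncomputable section

open CategoryTheory Limits AlgebraicGeometry Opposite

namespace Pool.Agent.KEW

variable (A : Type) [CommRing A]

variable {A}

/-- The object of the big site given by a scheme which is separated and of finite type over an
object of the big site. -/
def Big.mkOver (W : Big A) {V : Scheme.{0}} (f : V ⟶ W.obj.left) [LocallyOfFiniteType f]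
    [QuasiCompact f] [IsSeparated f] : Big A :=
  have := W.property.1
  have := W.property.2.1
  have := W.property.2.2
  ⟨Over.mk (f ≫ W.obj.hom), inferInstanceAs (LocallyOfFiniteType (f ≫ W.obj.hom)),
    inferInstanceAs (QuasiCompact (f ≫ W.obj.hom)), inferInstanceAs (IsSeparated (f ≫ W.obj.hom))⟩

/-- A morphism of the big site from a morphism of schemes over the base. -/
def Big.homMk {V W : Big A} (f : V.obj.left ⟶ W.obj.left) (h : f ≫ W.obj.hom = V.obj.hom) :
    V ⟶ W := ObjectProperty.homMk (Over.homMk f h)

@[simp] lemma Big.map_homMk {V W : Big A} (f : V.obj.left ⟶ W.obj.left)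
    (h : f ≫ W.obj.hom = V.obj.hom) : (big A).map (Big.homMk f h) = f := rfl

lemma Big.w {V W : Big A} (f : V ⟶ W) : (big A).map f ≫ W.obj.hom = V.obj.hom := Over.w f.hom

lemma Big.hom_ext {V W : Big A} {f g : V ⟶ W} (h : (big A).map f = (big A).map g) : f = g :=
  ObjectProperty.hom_ext _ (Over.OverMorphism.ext h)

end Pool.Agent.KEW
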