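import Pool.Agent.P.MP_6277db_ag.KEW.DefsA

/-!
KEW, layer L2b: presheaves of sets, their categories of elements, and the functor
`G ↦ (W ↦ ⨁_{x ∈ a(W) - b(W)} G(W, x))`.
-/

noncomputable section

open CategoryTheory Limits AlgebraicGeometry Opposite DirectSum

namespace Pool.Agent.KEW

variable {C : Type 1} [Category.{0} C] {L : Type 1} [CommRing L]

/-- A presheaf of sets. -/
structure SP (C : Type 1) [Category.{0} C] where
  obj : C → Type
  res : ∀ {V W : C}, (V ⟶ W) → obj W → obj V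
  res_id : ∀ (W : C) (x : obj W), res (𝟙 W) x = x
  res_comp : ∀ {U V W : C} (f : U ⟶ V) (g : V ⟶ W) (x : obj W), res (f ≫ g) x = res f (res g x)

/-- A subpresheaf. -/
structure SP.Sub (X : SP C) where
  mem : ∀ {W : C}, X.obj W → Prop
  res : ∀ {V W : C} (f : V ⟶ W) {x : X.obj W}, mem x → mem (X.res f x)

namespace SP.Sub

variable {X : SP C}

/-- The whole presheaf. -/
def top : X.Sub := ⟨fun _ => True, fun _ _ _ => trivial⟩

/-- The empty subpresheaf. -/
def bot : X.Sub := ⟨fun _ => False, fun _ _ h => h⟩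

/-- Intersection. -/
def inf (a b : X.Sub) : X.Sub :=
  ⟨fun x => a.mem x ∧ b.mem x, fun f _ h => ⟨a.res f h.1, b.res f h.2⟩⟩

/-- Union. -/
def sup (a b : X.Sub) : X.Sub :=
  ⟨fun x => a.mem x ∨ b.mem x, fun f _ h => h.imp (a.res f) (b.res f)⟩

/-- Inclusion. -/
def Le (a b : X.Sub) : Prop := ∀ ⦃W : C⦄ (x : X.obj W), a.mem x → b.mem x

end SP.Sub

/-- The category of elements. -/
structure El (X : SP C) : Type 1 where
  W : C
  x : X.obj W

instance (X : SP C) : Category.{0} (El X) where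
  Hom p q := {f : p.W ⟶ q.W // X.res f q.x = p.x}
  id p := ⟨𝟙 _, X.res_id _ _⟩
  comp f g := ⟨f.1 ≫ g.1, by rw [X.res_comp, g.2, f.2]⟩
  id_comp f := Subtype.ext (Category.id_comp _)
  comp_id f := Subtype.ext (Category.comp_id _)
  assoc f g h := Subtype.ext (Category.assoc _ _ _)

namespace El

variable {X : SP C}

@[ext] lemma hom_ext {p q : El X} {f g : p ⟶ q} (h : f.1 = g.1) : f = g := Subtype.ext h

@[simp] lemma id_val (p : El X) : (𝟙 p : p ⟶ p).1 = 𝟙 p.W := rfl

@[simp] lemma comp_val {p q r : El X} (f : p ⟶ q) (g : q ⟶ r) : (f ≫ g).1 = f.1 ≫ g.1 := rfl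

/-- The restriction of an element along a map, as a morphism of elements. -/
def along {V W : C} (f : V ⟶ W) (x : X.obj W) : (⟨V, X.res f x⟩ : El X) ⟶ ⟨W, x⟩ := ⟨f, rfl⟩

@[simp] lemma along_val {V W : C} (f : V ⟶ W) (x : X.obj W) : (along f x).1 = f := rfl

variable (X) in
/-- The projection to the base category. -/
@[simps] def proj : El X ⥤ C where
  obj p := p.W
  map f := f.1

lemma mem_of_hom {a : X.Sub} {p q : El X} (f : p ⟶ q) (h : a.mem q.x) : a.mem p.x :=
  f.2 ▸ a.res f.1 h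

end El

/-- Precomposition with a functor of sites. -/
abbrev pb {C' : Type 1} [Category.{0} C'] (L : Type 1) [CommRing L] (φ : C ⥤ C') :
    PSh C' L ⥤ PSh C L := (Functor.whiskeringLeft _ _ _).obj φ.op

/-- The termwise extension of an additive functor to complexes. -/
abbrev ch {C' : Type 1} [Category.{0} C'] (Φ : PSh C' L ⥤ PSh C L) [Φ.Additive] :
    Ch C' L ⥤ Ch C L := Φ.mapHomologicalComplex _

variable {X : SP C} (a b : X.Sub)

/-- The index set `a(W) - b(W)`. -/
abbrev SmIdx (W : C) : Type := {x : X.obj W // a.mem x ∧ ¬ b.mem x}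

/-- The module of sections of the sum. -/
def SmMod (G : PSh (El X) L) (W : C) : Type 1 :=
  ⨁ x : SmIdx a b W, G.obj (op ⟨W, x.1⟩)

instance (G : PSh (El X) L) (W : C) : AddCommGroup (SmMod a b G W) :=
  inferInstanceAs (AddCommGroup (⨁ x : SmIdx a b W, G.obj (op ⟨W, x.1⟩)))

instance (G : PSh (El X) L) (W : C) : Module L (SmMod a b G W) :=
  inferInstanceAs (Module L (⨁ x : SmIdx a b W, G.obj (op ⟨W, x.1⟩)))

open Classical in
/-- The inclusion of a summand. -/
def smLof (G : PSh (El X) L) (W : C) (x : SmIdx a b W) :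
    G.obj (op ⟨W, x.1⟩) →ₗ[L] SmMod a b G W :=
  DirectSum.lof L (SmIdx a b W) (fun x => G.obj (op ⟨W, x.1⟩)) x

/-- The projection to a summand. -/
def smPi (G : PSh (El X) L) (W : C) (x : SmIdx a b W) :
    SmMod a b G W →ₗ[L] G.obj (op ⟨W, x.1⟩) :=
  DirectSum.component L (SmIdx a b W) (fun x => G.obj (op ⟨W, x.1⟩)) x

open Classical in
/-- The generator map (zero outside `a - b`). -/
def smI (G : PSh (El X) L) (p : El X) : G.obj (op p) →ₗ[L] SmMod a b G p.W :=
  if h : a.mem p.x ∧ ¬ b.mem p.x then smLof a b G p.W ⟨p.x, h⟩ else 0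

open Classical in
/-- Linear maps out of the sum. -/
def smLift {G : PSh (El X) L} {W : C} {M : Type 1} [AddCommGroup M] [Module L M]
    (φ : ∀ x : X.obj W, a.mem x → (G.obj (op ⟨W, x⟩) →ₗ[L] M)) : SmMod a b G W →ₗ[L] M :=
  DirectSum.toModule L _ _ fun x => φ x.1 x.2.1

variable {a b}

lemma smI_eq_lof {G : PSh (El X) L} {W : C} (x : SmIdx a b W) :
    smI a b G ⟨W, x.1⟩ = smLof a b G W x := dif_pos x.2

lemma smI_of_b {G : PSh (El X) L} {p : El X} (h : b.mem p.x) (g : G.obj (op p)) :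
    smI a b G p g = 0 := by
  simp [smI, h]

lemma smI_of_not_a {G : PSh (El X) L} {p : El X} (h : ¬ a.mem p.x) (g : G.obj (op p)) :
    smI a b G p g = 0 := by
  simp [smI, h]

lemma smLift_I {G : PSh (El X) L} {W : C} {M : Type 1} [AddCommGroup M] [Module L M]
    (φ : ∀ x : X.obj W, a.mem x → (G.obj (op ⟨W, x⟩) →ₗ[L] M)) {x : X.obj W} (ha : a.mem x)
    (g : G.obj (op ⟨W, x⟩)) (hb : b.mem x → φ x ha g = 0) :
    smLift a b φ (smI a b G ⟨W, x⟩ g) = φ x ha g := by
  by_cases h : b.mem x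
  · rw [smI_of_b (p := ⟨W, x⟩) h, map_zero, hb h]
  · classical
    rw [smI_eq_lof (⟨x, ha, h⟩ : SmIdx a b W)]
    exact DirectSum.toModule_lof L _ _

lemma sm_induction {G : PSh (El X) L} {W : C} {P : SmMod a b G W → Prop} (m : SmMod a b G W)
    (zero : P 0)
    (gen : ∀ (x : X.obj W) (g : G.obj (op ⟨W, x⟩)), a.mem x → ¬ b.mem x → P (smI a b G ⟨W, x⟩ g))
    (add : ∀ m m', P m → P m' → P (m + m')) : P m := by
  classical
  induction m using DirectSum.induction_on with
  | zero => exact zero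
  | of x g =>
    have h := gen x.1 g x.2.1 x.2.2
    rw [smI_eq_lof x] at h
    exact h
  | add m m' h h' => exact add m m' h h'

lemma sm_lin_ext {G : PSh (El X) L} {W : C} {M : Type 1} [AddCommGroup M] [Module L M]
    {f f' : SmMod a b G W →ₗ[L] M}
    (h : ∀ (x : X.obj W) (g : G.obj (op ⟨W, x⟩)), a.mem x → ¬ b.mem x →
      f (smI a b G ⟨W, x⟩ g) = f' (smI a b G ⟨W, x⟩ g)) : f = f' := by
  ext1 m
  induction m using sm_induction with
  | zero => simp
  | gen x g ha hb => exact h x g ha hb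
  | add m m' h h' => simp [h, h']

variable (a b) in
/-- Restriction maps of the sum. -/
def smRes (G : PSh (El X) L) {V W : C} (f : V ⟶ W) : SmMod a b G W →ₗ[L] SmMod a b G V :=
  smLift a b fun x _ => smI a b G ⟨V, X.res f x⟩ ∘ₗ (G.map (El.along f x).op).hom

lemma smRes_I (G : PSh (El X) L) {p q : El X} (f : p ⟶ q) (ha : a.mem q.x) (g : G.obj (op q)) :
    smRes a b G f.1 (smI a b G q g) = smI a b G p ((G.map f.op).hom g) := by
  obtain ⟨V, y⟩ := p
  obtain ⟨W, x⟩ := q
  have key : ∀ (f : V ⟶ W) (y : X.obj V) (hf : X.res f x = y),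
      smRes a b G f (smI a b G ⟨W, x⟩ g) =
        smI a b G ⟨V, y⟩ ((G.map (Quiver.Hom.op (X := (⟨V, y⟩ : El X)) ⟨f, hf⟩)).hom g) := by
    rintro f _ rfl
    have h := smLift_I (b := b) (M := SmMod a b G V) (x := x)
      (fun x (_ : a.mem x) => smI a b G ⟨V, X.res f x⟩ ∘ₗ (G.map (El.along f x).op).hom) ha g
      fun hb => smI_of_b (p := ⟨V, X.res f x⟩) (b.res f hb) _
    exact h
  exact key f.1 y f.2

variable (a b) in
/-- The presheaf `W ↦ ⨁_{x ∈ a(W) - b(W)} G(W, x)`. -/
def smObj (G : PSh (El X) L) : PSh C L where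
  obj W := ModuleCat.of L (SmMod a b G W.unop)
  map f := ModuleCat.ofHom (smRes a b G f.unop)
  map_id W := by
    refine ModuleCat.hom_ext (sm_lin_ext fun x g ha _ => ?_)
    have := smRes_I (b := b) G (𝟙 (⟨W.unop, x⟩ : El X)) ha g
    simpa using this
  map_comp {U V W} f f' := by
    refine ModuleCat.hom_ext (sm_lin_ext fun x g ha _ => ?_)
    have h1 := smRes_I (b := b) G (El.along f.unop x) ha g
    have h2 := smRes_I (b := b) G (El.along f'.unop (X.res f.unop x)) (a.res _ ha)
      ((G.map (El.along f.unop x).op).hom g)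
    have h3 := smRes_I (b := b) G
      (El.along f'.unop (X.res f.unop x) ≫ El.along f.unop x) ha g
    simp only [El.along_val, El.comp_val, op_comp, Functor.map_comp, ModuleCat.hom_comp,
      LinearMap.comp_apply] at h1 h2 h3
    simp only [unop_comp, ModuleCat.hom_ofHom, ModuleCat.hom_comp, LinearMap.comp_apply]
    rw [h1, h2, h3]

lemma smObj_map_I (G : PSh (El X) L) {p q : El X} (f : p ⟶ q) (ha : a.mem q.x)
    (g : G.obj (op q)) :
    ((smObj a b G).map f.1.op).hom (smI a b G q g) = smI a b G p ((G.map f.op).hom g) :=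
  smRes_I G f ha g

lemma smObj_map_I' (G : PSh (El X) L) {V W : C} (f : V ⟶ W) {x : X.obj W} (ha : a.mem x)
    (g : G.obj (op ⟨W, x⟩)) :
    ((smObj a b G).map f.op).hom (smI a b G ⟨W, x⟩ g) =
      smI a b G ⟨V, X.res f x⟩ ((G.map (El.along f x).op).hom g) :=
  smRes_I G (El.along f x) ha g

lemma sm_hom_ext {G : PSh (El X) L} {M : PSh C L} {f f' : smObj a b G ⟶ M}
    (h : ∀ (p : El X) (g : G.obj (op p)), a.mem p.x → ¬ b.mem p.x →
      (f.app (op p.W)).hom (smI a b G p g) = (f'.app (op p.W)).hom (smI a b G p g)) : f = f' := by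
  ext W : 2
  exact ModuleCat.hom_ext (sm_lin_ext fun x g ha hb => h ⟨W.unop, x⟩ g ha hb)

variable (a b) in
/-- The data of a map of presheaves out of the sum. -/
structure SmCone (G : PSh (El X) L) (M : PSh C L) where
  φ : ∀ p : El X, a.mem p.x → (G.obj (op p) →ₗ[L] M.obj (op p.W))
  nat : ∀ {p q : El X} (f : p ⟶ q) (ha : a.mem q.x) (g : G.obj (op q)),
    (M.map f.1.op).hom (φ q ha g) = φ p (El.mem_of_hom f ha) ((G.map f.op).hom g)
  zero : ∀ (p : El X) (ha : a.mem p.x) (g : G.obj (op p)), b.mem p.x → φ p ha g = 0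

/-- The linear map on sections. -/
def SmCone.lin {G : PSh (El X) L} {M : PSh C L} (c : SmCone a b G M) (W : C) :
    SmMod a b G W →ₗ[L] M.obj (op W) := smLift a b fun x ha => c.φ ⟨W, x⟩ ha

lemma SmCone.lin_I {G : PSh (El X) L} {M : PSh C L} (c : SmCone a b G M) (p : El X)
    (ha : a.mem p.x) (g : G.obj (op p)) : c.lin p.W (smI a b G p g) = c.φ p ha g := by
  obtain ⟨W, x⟩ := p
  exact smLift_I (b := b) (M := M.obj (op W)) (fun x ha => c.φ ⟨W, x⟩ ha) ha g
    (c.zero ⟨W, x⟩ ha g)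

/-- Maps of presheaves out of the sum. -/
def SmCone.desc {G : PSh (El X) L} {M : PSh C L} (c : SmCone a b G M) : smObj a b G ⟶ M where
  app W := ModuleCat.ofHom (c.lin W.unop)
  naturality {W V} f := by
    refine ModuleCat.hom_ext (sm_lin_ext fun x g ha _ => ?_)
    have h1 := smObj_map_I' (b := b) G f.unop ha g
    have h2 := c.lin_I ⟨W.unop, x⟩ ha g
    have h3 := c.lin_I ⟨V.unop, X.res f.unop x⟩ (a.res f.unop ha)
      ((G.map (El.along f.unop x).op).hom g)
    have h4 := c.nat (El.along f.unop x) ha g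
    exact (congrArg (c.lin V.unop) h1).trans
      (h3.trans (h4.symm.trans (congrArg (M.map f).hom h2.symm)))

lemma SmCone.desc_I {G : PSh (El X) L} {M : PSh C L} (c : SmCone a b G M) (p : El X)
    (ha : a.mem p.x) (g : G.obj (op p)) :
    (c.desc.app (op p.W)).hom (smI a b G p g) = c.φ p ha g := c.lin_I p ha g

variable (a b) in
/-- Functoriality of the sum in the coefficients: the data. -/
def smMapCone {G G' : PSh (El X) L} (τ : G ⟶ G') : SmCone a b G (smObj a b G') where
  φ p _ := smI a b G' p ∘ₗ (τ.app (op p)).hom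
  nat {p q} f ha g := by
    have := congrArg (fun k => k.hom g) (τ.naturality f.op)
    simp only [ModuleCat.hom_comp, LinearMap.comp_apply] at this ⊢
    rw [this]
    exact smObj_map_I G' f ha _
  zero p _ g hb := smI_of_b hb _

variable (a b) in
/-- Functoriality of the sum in the coefficients. -/
def smMap {G G' : PSh (El X) L} (τ : G ⟶ G') : smObj a b G ⟶ smObj a b G' :=
  (smMapCone a b τ).desc

lemma smMap_I {G G' : PSh (El X) L} (τ : G ⟶ G') (p : El X) (g : G.obj (op p)) :
    ((smMap a b τ).app (op p.W)).hom (smI a b G p g) = smI a b G' p ((τ.app (op p)).hom g) := by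
  by_cases ha : a.mem p.x
  · exact (smMapCone a b τ).desc_I p ha g
  · rw [smI_of_not_a ha, smI_of_not_a ha]
    exact map_zero _

variable (a b) in
/-- The sum as a functor. -/
def sm (L : Type 1) [CommRing L] : PSh (El X) L ⥤ PSh C L where
  obj G := smObj a b G
  map τ := smMap a b τ
  map_id G := sm_hom_ext fun p g _ _ => smMap_I (𝟙 G) p g
  map_comp {G G' G''} τ τ' := sm_hom_ext fun p g _ _ => by
    have h := smMap_I (a := a) (b := b) (τ ≫ τ') p g
    have h1 := smMap_I (a := a) (b := b) τ p g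
    have h2 := smMap_I (a := a) (b := b) τ' p ((τ.app (op p)).hom g)
    exact h.trans (h2.symm.trans (congrArg _ h1.symm))

lemma sm_map_I {G G' : PSh (El X) L} (τ : G ⟶ G') (p : El X) (g : G.obj (op p)) :
    (((sm a b L).map τ).app (op p.W)).hom (smI a b G p g) =
      smI a b G' p ((τ.app (op p)).hom g) := smMap_I τ p g

instance : (sm a b L).Additive where
  map_add {G G' τ τ'} := sm_hom_ext fun p g _ _ => by
    have h := sm_map_I (a := a) (b := b) (τ + τ') p g
    have h1 := sm_map_I (a := a) (b := b) τ p g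
    have h2 := sm_map_I (a := a) (b := b) τ' p g
    refine h.trans ?_
    change smI a b G' p ((τ.app (op p)).hom g + (τ'.app (op p)).hom g) =
      (((sm a b L).map τ).app (op p.W)).hom (smI a b G p g) +
        (((sm a b L).map τ').app (op p.W)).hom (smI a b G p g)
    rw [map_add, h1, h2]
    rfl

lemma smPi_I_self {G : PSh (El X) L} {W : C} (x : SmIdx a b W) (g : G.obj (op ⟨W, x.1⟩)) :
    smPi a b G W x (smI a b G ⟨W, x.1⟩ g) = g := by
  classical
  rw [smI_eq_lof x]
  exact DirectSum.component.lof_self (M := fun x : SmIdx a b W => G.obj (op ⟨W, x.1⟩)) L x g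

lemma smPi_I_ne {G : PSh (El X) L} {W : C} (x : SmIdx a b W) {y : X.obj W} (h : y ≠ x.1)
    (g : G.obj (op ⟨W, y⟩)) : smPi a b G W x (smI a b G ⟨W, y⟩ g) = 0 := by
  classical
  by_cases hy : a.mem y ∧ ¬ b.mem y
  · rw [smI_eq_lof (⟨y, hy⟩ : SmIdx a b W)]
    refine (DirectSum.component.of (M := fun x : SmIdx a b W => G.obj (op ⟨W, x.1⟩))
      L x ⟨y, hy⟩ g).trans (dif_neg fun e => h ?_)
    exact congrArg Subtype.val e
  · have : smI a b G ⟨W, y⟩ = 0 := dif_neg hy
    rw [this]
    exact map_zero _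

lemma sm_eq_sum {G : PSh (El X) L} {W : C} (m : SmMod a b G W) :
    ∃ s : Finset (SmIdx a b W), m = ∑ x ∈ s, smI a b G ⟨W, x.1⟩ (smPi a b G W x m) ∧
      ∀ x ∉ s, smPi a b G W x m = 0 := by
  classical
  refine ⟨DFinsupp.support m, ?_, fun x hx => DFinsupp.notMem_support_iff.1 hx⟩
  refine (DirectSum.sum_support_of m).symm.trans (Finset.sum_congr rfl fun x _ => ?_)
  rw [smI_eq_lof x]
  rfl

end Pool.Agent.KEW
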